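import Pool.Agent.Lib.ZetaCount_helper33.Tauber
import Pool.Agent.MP_67227b_nt.Defs

set_option autoImplicit false

open Filter MeasureTheory Topology Set Metric
open scoped Real ENNReal

namespace Pool.Agent.Lib.ZetaCount_helper33

open Pool.Agent.MP_67227b_nt

lemma xi_order_symm (s : ℂ) : analyticOrderNatAt xi (1 - s) = analyticOrderNatAt xi s := by
  have hg : AnalyticAt ℂ (fun z : ℂ => 1 - z) s := by fun_prop
  have hd : deriv (fun z : ℂ => 1 - z) s ≠ 0 := by
    simp
  have h := analyticOrderAt_comp_of_deriv_ne_zero (f := xi) hg hd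
  have h2 : xi ∘ (fun z : ℂ => 1 - z) = xi := by
    ext z
    exact xi_one_sub z
  rw [h2] at h
  simp only [analyticOrderNatAt, h]

lemma Gammaℝ_ne_zero_of_im {s : ℂ} (hs : s.im ≠ 0) : Complex.Gammaℝ s ≠ 0 := by
  intro h
  rw [Complex.Gammaℝ_eq_zero_iff] at h
  obtain ⟨n, hn⟩ := h
  apply hs
  rw [hn]
  simp

lemma xi_eq_zero_iff {s : ℂ} (hs : s.im ≠ 0) : xi s = 0 ↔ riemannZeta s = 0 := by
  have h0 : s ≠ 0 := by rintro rfl; simp at hs
  have h1 : s ≠ 1 := by rintro rfl; simp at hs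
  rw [xi_eq' h0 h1 (Gammaℝ_ne_zero_of_im hs)]
  have h3 : (1 : ℂ) - s ≠ 0 := sub_ne_zero.2 h1.symm
  have h4 := Gammaℝ_ne_zero_of_im hs
  simp [h0, h3, h4]

lemma xi_order_eq {s : ℂ} (hs : s.im ≠ 0) :
    analyticOrderNatAt xi s = analyticOrderNatAt riemannZeta s := by
  have h0 : s ≠ 0 := by rintro rfl; simp at hs
  have h1 : s ≠ 1 := by rintro rfl; simp at hs
  have hU : ∀ᶠ z in 𝓝 s, z.im ≠ 0 :=
    (Complex.continuous_im.continuousAt).eventually_ne hs
  have hG : AnalyticAt ℂ (fun z : ℂ => (Complex.Gammaℝ z)⁻¹) s :=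
    Complex.differentiable_Gammaℝ_inv.analyticAt s
  have hζ : AnalyticAt ℂ riemannZeta s := analyticOn_riemannZeta s h1
  -- zeta times a nonvanishing analytic function
  have hgz : AnalyticAt ℂ (fun z : ℂ => z * (1 - z) * ((Complex.Gammaℝ z)⁻¹)⁻¹) s := by
    refine AnalyticAt.mul (by fun_prop) (hG.inv ?_)
    exact inv_ne_zero (Gammaℝ_ne_zero_of_im hs)
  have heq : xi =ᶠ[𝓝 s] (fun z : ℂ => z * (1 - z) * ((Complex.Gammaℝ z)⁻¹)⁻¹) * riemannZeta := by
    filter_upwards [hU] with z hz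
    have h0 : z ≠ 0 := by rintro rfl; simp at hz
    have h1 : z ≠ 1 := by rintro rfl; simp at hz
    rw [xi_eq' h0 h1 (Gammaℝ_ne_zero_of_im hz)]
    simp
  have hne : (fun z : ℂ => z * (1 - z) * ((Complex.Gammaℝ z)⁻¹)⁻¹) s ≠ 0 := by
    have h3 : (1 : ℂ) - s ≠ 0 := sub_ne_zero.2 h1.symm
    have h4 := Gammaℝ_ne_zero_of_im hs
    simp [h0, h3, h4]
  rw [analyticOrderNatAt, analyticOrderNatAt, analyticOrderAt_congr heq,
    analyticOrderAt_mul hgz hζ, hgz.analyticOrderAt_eq_zero.2 hne, zero_add]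

lemma re_of_xi_zero {s : ℂ} (hs : xi s = 0) : 0 ≤ s.re ∧ s.re ≤ 1 := by
  constructor
  · by_contra h
    push Not at h
    apply xi_ne_zero_of_one_lt_re (s := 1 - s)
    · simp only [Complex.sub_re, Complex.one_re]
      linarith
    · rw [xi_one_sub, hs]
  · by_contra h
    push Not at h
    exact xi_ne_zero_of_one_lt_re h hs

/-- The zeros with positive imaginary part at most `T`. -/
noncomputable def Zp (T : ℝ) : Finset ℂ :=
  (zset differentiable_xi xi_two_ne_zero (T + 2)).filter (fun s => 0 < s.im ∧ s.im ≤ T)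

/-- The zeros with negative imaginary part at least `-T`. -/
noncomputable def Zm (T : ℝ) : Finset ℂ :=
  (zset differentiable_xi xi_two_ne_zero (T + 2)).filter (fun s => s.im < 0 ∧ -T ≤ s.im)

lemma mem_closedBall_of_zero {s : ℂ} (hs : xi s = 0) {T : ℝ} (h : |s.im| ≤ T) :
    s ∈ closedBall (2 : ℂ) (T + 2) := by
  have hT : 0 ≤ T := (abs_nonneg _).trans h
  have h1 := re_of_xi_zero hs
  rw [mem_closedBall, dist_eq_norm]
  have h2 := Complex.norm_le_abs_re_add_abs_im (s - 2)
  have h3 : |(s - 2).re| ≤ 2 := by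
    simp only [Complex.sub_re, Complex.re_ofNat]
    rw [abs_le]
    constructor <;> linarith
  have h4 : |(s - 2).im| ≤ T := by
    simpa using h
  linarith

lemma mem_Zp {T : ℝ} {s : ℂ} : s ∈ Zp T ↔ riemannZeta s = 0 ∧ 0 < s.im ∧ s.im ≤ T := by
  rw [Zp, Finset.mem_filter, mem_zset]
  constructor
  · rintro ⟨⟨_, h1⟩, h2, h3⟩
    exact ⟨(xi_eq_zero_iff h2.ne').1 h1, h2, h3⟩
  · rintro ⟨h1, h2, h3⟩
    have h4 := (xi_eq_zero_iff h2.ne').2 h1
    exact ⟨⟨mem_closedBall_of_zero h4 (by rwa [abs_of_pos h2]), h4⟩, h2, h3⟩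

lemma mem_Zm {T : ℝ} {s : ℂ} : s ∈ Zm T ↔ xi s = 0 ∧ s.im < 0 ∧ -T ≤ s.im := by
  rw [Zm, Finset.mem_filter, mem_zset]
  constructor
  · rintro ⟨⟨_, h1⟩, h2, h3⟩
    exact ⟨h1, h2, h3⟩
  · rintro ⟨h1, h2, h3⟩
    exact ⟨⟨mem_closedBall_of_zero h1 (by rw [abs_of_neg h2]; linarith), h1⟩, h2, h3⟩

lemma mem_Zp' {T : ℝ} {s : ℂ} : s ∈ Zp T ↔ xi s = 0 ∧ 0 < s.im ∧ s.im ≤ T := by
  rw [mem_Zp]
  constructor
  · rintro ⟨h1, h2, h3⟩
    exact ⟨(xi_eq_zero_iff h2.ne').2 h1, h2, h3⟩
  · rintro ⟨h1, h2, h3⟩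
    exact ⟨(xi_eq_zero_iff h2.ne').1 h1, h2, h3⟩

/-- `N(T)`, the number of zeros with `0 < Im ≤ T`, with multiplicity. -/
noncomputable def Np (T : ℝ) : ℕ := ∑ s ∈ Zp T, analyticOrderNatAt xi s

lemma Np_eq (T : ℝ) : Np T = ∑ s ∈ Zp T, analyticOrderNatAt riemannZeta s := by
  apply Finset.sum_congr rfl
  intro s hs
  rw [mem_Zp] at hs
  exact xi_order_eq hs.2.1.ne'

lemma Nm_eq (T : ℝ) : ∑ s ∈ Zm T, analyticOrderNatAt xi s = Np T := by
  rw [Np]
  apply Finset.sum_bij (fun s _ => 1 - s)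
  · intro s hs
    rw [mem_Zm] at hs
    rw [mem_Zp', xi_one_sub]
    simp only [Complex.sub_im, Complex.one_im]
    refine ⟨hs.1, ?_, ?_⟩ <;> linarith [hs.2.1, hs.2.2]
  · intro a _ b _ h
    have := sub_right_injective h
    exact this
  · intro s hs
    rw [mem_Zp'] at hs
    refine ⟨1 - s, ?_, by ring⟩
    rw [mem_Zm, xi_one_sub]
    simp only [Complex.sub_im, Complex.one_im]
    refine ⟨hs.1, ?_, ?_⟩ <;> linarith [hs.2.1, hs.2.2]
  · intro s _
    exact (xi_order_symm s).symm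

lemma disjoint_Zp_Zm (T T' : ℝ) : Disjoint (Zp T) (Zm T') := by
  rw [Finset.disjoint_left]
  intro s h1 h2
  rw [mem_Zp] at h1
  rw [mem_Zm] at h2
  linarith [h1.2.1, h2.2.1]

lemma two_Np_le (T : ℝ) : 2 * Np T ≤ nxi (T + 2) := by
  have h1 : 2 * Np T = ∑ s ∈ Zp T ∪ Zm T, analyticOrderNatAt xi s := by
    rw [Finset.sum_union (disjoint_Zp_Zm T T), Nm_eq, ← Np]
    ring
  rw [h1, nxi, zcount]
  apply Finset.sum_le_sum_of_subset
  intro s hs
  rw [Finset.mem_union] at hs
  rcases hs with h | h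
  · exact (Finset.mem_filter.1 h).1
  · exact (Finset.mem_filter.1 h).1

lemma nxi_le (T : ℝ) : nxi T ≤ 2 * Np T + nxi 2 := by
  have h1 : 2 * Np T = ∑ s ∈ Zp T ∪ Zm T, analyticOrderNatAt xi s := by
    rw [Finset.sum_union (disjoint_Zp_Zm T T), Nm_eq, ← Np]
    ring
  have h2 : zset differentiable_xi xi_two_ne_zero T ⊆
      (Zp T ∪ Zm T) ∪ zset differentiable_xi xi_two_ne_zero 2 := by
    intro s hs
    rw [mem_zset] at hs
    have him : |s.im| ≤ T := by
      have h3 := hs.1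
      rw [mem_closedBall, dist_eq_norm] at h3
      have h4 := Complex.abs_im_le_norm (s - 2)
      simp only [Complex.sub_im, Complex.im_ofNat, sub_zero] at h4
      exact h4.trans h3
    rw [Finset.mem_union, Finset.mem_union, mem_Zp', mem_Zm, mem_zset]
    rcases lt_trichotomy s.im 0 with h | h | h
    · left; right
      rw [abs_of_neg h] at him
      exact ⟨hs.2, h, by linarith⟩
    · right
      refine ⟨?_, hs.2⟩
      have := mem_closedBall_of_zero hs.2 (T := 0) (by rw [h]; simp)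
      simpa using this
    · left; left
      rw [abs_of_pos h] at him
      exact ⟨hs.2, h, him⟩
  rw [h1, nxi, zcount, nxi, zcount]
  calc _ ≤ ∑ s ∈ (Zp T ∪ Zm T) ∪ zset differentiable_xi xi_two_ne_zero 2,
        analyticOrderNatAt xi s := Finset.sum_le_sum_of_subset h2
    _ ≤ _ := by
        have := Finset.sum_union_inter (s₁ := Zp T ∪ Zm T)
          (s₂ := zset differentiable_xi xi_two_ne_zero 2) (f := fun s => analyticOrderNatAt xi s)
        omega

/-- The main term of the Riemann - von Mangoldt formula. -/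
theorem tendsto_Np : Tendsto (fun T : ℝ => (Np T : ℝ) / zeroScale T) atTop (𝓝 1) := by
  have hpi := Real.pi_pos
  have hlogT : Tendsto (fun T : ℝ => T * Real.log T) atTop atTop :=
    tendsto_id.atTop_mul_atTop₀ Real.tendsto_log_atTop
  -- lower function
  have h1 : Tendsto (fun T : ℝ => π * ((nxi T : ℝ) / (T * Real.log T) -
      nxi 2 / (T * Real.log T))) atTop (𝓝 1) := by
    have h := (tendsto_nxi.sub (hlogT.const_div_atTop (nxi 2 : ℝ))).const_mul π
    have e : π * (1 / π - 0) = 1 := by field_simp; ring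
    rwa [e] at h
  have h2 : Tendsto (fun T : ℝ => π * ((nxi (T + 2) : ℝ) / ((T + 2) * Real.log (T + 2)) *
      (((T + 2) / T) * (Real.log (T + 2) / Real.log T)))) atTop (𝓝 1) := by
    have ha : Tendsto (fun T : ℝ => T + 2) atTop atTop := tendsto_atTop_add_const_right _ _ tendsto_id
    have hb : Tendsto (fun T : ℝ => (T + 2) / T) atTop (𝓝 1) := by
      have : Tendsto (fun T : ℝ => 1 + 2 / T) atTop (𝓝 (1 + 0)) :=
        (tendsto_id.const_div_atTop (2 : ℝ)).const_add 1
      rw [add_zero] at this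
      refine this.congr' ?_
      filter_upwards [eventually_gt_atTop (0 : ℝ)] with T hT
      field_simp
    have hc : Tendsto (fun T : ℝ => Real.log (T + 2) / Real.log T) atTop (𝓝 1) := by
      have h3 : Tendsto (fun T : ℝ => 1 + Real.log ((T + 2) / T) / Real.log T) atTop
          (𝓝 (1 + 0)) := by
        apply Tendsto.const_add
        have h4 : Tendsto (fun T : ℝ => Real.log ((T + 2) / T)) atTop (𝓝 (Real.log 1)) :=
          hb.log one_ne_zero
        exact h4.div_atTop Real.tendsto_log_atTop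
      rw [add_zero] at h3
      refine h3.congr' ?_
      filter_upwards [eventually_gt_atTop (1 : ℝ)] with T hT
      have hl : 0 < Real.log T := Real.log_pos hT
      rw [Real.log_div (by positivity) (by positivity)]
      field_simp
      ring
    have h := ((tendsto_nxi.comp ha).mul (hb.mul hc)).const_mul π
    have e : π * (1 / π * (1 * 1)) = 1 := by field_simp
    rw [e] at h
    exact h
  refine tendsto_of_tendsto_of_tendsto_of_le_of_le' h1 h2 ?_ ?_
  · filter_upwards [eventually_gt_atTop (1 : ℝ)] with T hT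
    have hl : 0 < Real.log T := Real.log_pos hT
    have hT0 : 0 < T := by linarith
    have h := nxi_le T
    have h' : (nxi T : ℝ) ≤ 2 * Np T + nxi 2 := by exact_mod_cast h
    rw [zeroScale, ← sub_div, le_div_iff₀ (by positivity)]
    have e : π * (((nxi T : ℝ) - nxi 2) / (T * Real.log T)) * (T / (2 * π) * Real.log T) =
        ((nxi T : ℝ) - nxi 2) / 2 := by
      field_simp
    rw [e]
    linarith
  · filter_upwards [eventually_gt_atTop (1 : ℝ)] with T hT
    have hl : 0 < Real.log T := Real.log_pos hT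
    have hl2 : 0 < Real.log (T + 2) := Real.log_pos (by linarith)
    have hT0 : 0 < T := by linarith
    have h := two_Np_le T
    have h' : 2 * (Np T : ℝ) ≤ nxi (T + 2) := by exact_mod_cast h
    rw [zeroScale, div_le_iff₀ (by positivity)]
    have e : π * ((nxi (T + 2) : ℝ) / ((T + 2) * Real.log (T + 2)) *
      (((T + 2) / T) * (Real.log (T + 2) / Real.log T))) * (T / (2 * π) * Real.log T) =
        (nxi (T + 2) : ℝ) / 2 := by
      field_simp
    rw [e]
    linarith

end Pool.Agent.Lib.ZetaCount_helper33
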