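import Mathlib

set_option autoImplicit false

open Filter MeasureTheory Topology Set
open scoped Real

namespace Pool.Agent.Lib.ZetaCount_helper33

/-- `|Γ(s)| ≤ Γ(Re s)` for `Re s > 0`. -/
lemma norm_Gamma_le {s : ℂ} (hs : 0 < s.re) : ‖Complex.Gamma s‖ ≤ Real.Gamma s.re := by
  rw [Complex.Gamma_eq_integral hs, Real.Gamma_eq_integral hs, Complex.GammaIntegral]
  refine (norm_integral_le_integral_norm _).trans (le_of_eq ?_)
  apply setIntegral_congr_fun measurableSet_Ioi
  intro x hx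
  have hx' : (0 : ℝ) < x := hx
  simp only [norm_mul, Complex.norm_real, Real.norm_eq_abs, abs_of_pos (Real.exp_pos _)]
  rw [Complex.norm_cpow_eq_rpow_re_of_pos hx']
  simp

/-- Termwise comparison of the Gamma sequences. -/
lemma norm_GammaSeq_ge {x y : ℝ} (hx : 1 ≤ x) (n : ℕ) :
    Real.GammaSeq x n * ‖Complex.GammaSeq (1 + y * Complex.I) n‖ ≤
      ‖Complex.GammaSeq (x + y * Complex.I) n‖ * Real.GammaSeq 1 n := by
  rcases Nat.eq_zero_or_pos n with hn | hn
  · subst hn
    simp only [Real.GammaSeq, Complex.GammaSeq, Nat.factorial_zero,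
      Nat.cast_zero, Nat.cast_one, mul_one]
    have h1 : (0 : ℝ) ^ x = 0 := Real.zero_rpow (by linarith)
    simp [h1]
  have hn' : (0 : ℝ) < n := by exact_mod_cast hn
  have hfac : (0 : ℝ) < (n.factorial : ℝ) := by positivity
  have e1 : ∀ z : ℝ, 0 < z → ‖Complex.GammaSeq (z + y * Complex.I) n‖ =
      (n : ℝ) ^ z * n.factorial / ∏ j ∈ Finset.range (n + 1), ‖(z + y * Complex.I + j : ℂ)‖ := by
    intro z hz
    rw [Complex.GammaSeq, norm_div, norm_mul, norm_prod]
    congr 2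
    · rw [show (n : ℂ) = ((n : ℝ) : ℂ) by simp, Complex.norm_cpow_eq_rpow_re_of_pos hn']
      simp
    · simp
  have e2 : ‖Complex.GammaSeq (1 + y * Complex.I) n‖ =
      (n : ℝ) ^ (1 : ℝ) * n.factorial /
        ∏ j ∈ Finset.range (n + 1), ‖(1 + y * Complex.I + j : ℂ)‖ := by
    have := e1 1 one_pos
    simpa using this
  rw [e1 x (by linarith), e2, Real.GammaSeq, Real.GammaSeq]
  have pos1 : ∀ z : ℝ, 0 < z → ∀ j : ℕ, 0 < ‖(z + y * Complex.I + j : ℂ)‖ := by
    intro z hz j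
    rw [norm_pos_iff]
    intro h
    have := congrArg Complex.re h
    simp at this
    have hj : (0 : ℝ) ≤ j := Nat.cast_nonneg j
    linarith
  have P1 : 0 < ∏ j ∈ Finset.range (n + 1), ‖(x + y * Complex.I + j : ℂ)‖ :=
    Finset.prod_pos fun j _ => pos1 x (by linarith) j
  have P2 : 0 < ∏ j ∈ Finset.range (n + 1), ‖(1 + y * Complex.I + j : ℂ)‖ :=
    Finset.prod_pos fun j _ => by simpa using pos1 1 one_pos j
  have P3 : 0 < ∏ j ∈ Finset.range (n + 1), (x + j) :=
    Finset.prod_pos fun j _ => by positivity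
  have P4 : 0 < ∏ j ∈ Finset.range (n + 1), ((1 : ℝ) + j) :=
    Finset.prod_pos fun j _ => by positivity
  have key : (∏ j ∈ Finset.range (n + 1), ‖(x + y * Complex.I + j : ℂ)‖) *
      ∏ j ∈ Finset.range (n + 1), ((1 : ℝ) + j) ≤
      (∏ j ∈ Finset.range (n + 1), (x + j)) *
        ∏ j ∈ Finset.range (n + 1), ‖(1 + y * Complex.I + j : ℂ)‖ := by
    rw [← Finset.prod_mul_distrib, ← Finset.prod_mul_distrib]
    apply Finset.prod_le_prod
    · intro j _
      positivity
    · intro j _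
      have hj : (0 : ℝ) ≤ j := Nat.cast_nonneg j
      have n1 : ‖(x + y * Complex.I + j : ℂ)‖ = √((x + j) ^ 2 + y ^ 2) := by
        rw [show (x + y * Complex.I + j : ℂ) = ((x + j : ℝ) : ℂ) + (y : ℝ) * Complex.I by
          push_cast; ring, Complex.norm_add_mul_I]
      have n2 : ‖(1 + y * Complex.I + j : ℂ)‖ = √((1 + j) ^ 2 + y ^ 2) := by
        rw [show (1 + y * Complex.I + j : ℂ) = ((1 + j : ℝ) : ℂ) + (y : ℝ) * Complex.I by
          push_cast; ring, Complex.norm_add_mul_I]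
      rw [n1, n2]
      have s1 : √((x + j) ^ 2 + y ^ 2) * (1 + j) = √(((x + j) ^ 2 + y ^ 2) * (1 + j) ^ 2) := by
        rw [Real.sqrt_mul (by positivity), Real.sqrt_sq (by positivity)]
      have s2 : (x + j) * √((1 + j) ^ 2 + y ^ 2) = √((x + j) ^ 2 * ((1 + j) ^ 2 + y ^ 2)) := by
        rw [Real.sqrt_mul (by positivity), Real.sqrt_sq (by positivity)]
      rw [s1, s2]
      apply Real.sqrt_le_sqrt
      have : (1 + (j : ℝ)) ^ 2 ≤ (x + j) ^ 2 := by gcongr
      nlinarith [sq_nonneg y, mul_nonneg (sq_nonneg y) (sub_nonneg.2 this)]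
  have e3 : (n : ℝ) ^ x * n.factorial / (∏ j ∈ Finset.range (n + 1), (x + j)) *
      ((n : ℝ) ^ (1 : ℝ) * n.factorial /
        ∏ j ∈ Finset.range (n + 1), ‖(1 + y * Complex.I + j : ℂ)‖) =
      ((n : ℝ) ^ x * n.factorial * ((n : ℝ) ^ (1 : ℝ) * n.factorial)) /
      ((∏ j ∈ Finset.range (n + 1), (x + j)) *
        ∏ j ∈ Finset.range (n + 1), ‖(1 + y * Complex.I + j : ℂ)‖) := by
    field_simp
  have e4 : (n : ℝ) ^ x * n.factorial / (∏ j ∈ Finset.range (n + 1), ‖(x + y * Complex.I + j : ℂ)‖) *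
      ((n : ℝ) ^ (1 : ℝ) * n.factorial / ∏ j ∈ Finset.range (n + 1), ((1 : ℝ) + j)) =
      ((n : ℝ) ^ x * n.factorial * ((n : ℝ) ^ (1 : ℝ) * n.factorial)) /
      ((∏ j ∈ Finset.range (n + 1), ‖(x + y * Complex.I + j : ℂ)‖) *
        ∏ j ∈ Finset.range (n + 1), ((1 : ℝ) + j)) := by
    field_simp
  rw [e3, e4]
  apply div_le_div_of_nonneg_left (by positivity) (by positivity) key

lemma Gamma_mul_le {x y : ℝ} (hx : 1 ≤ x) :
    Real.Gamma x * ‖Complex.Gamma (1 + y * Complex.I)‖ ≤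
      ‖Complex.Gamma (x + y * Complex.I)‖ := by
  have h1 : Tendsto (fun n => Real.GammaSeq x n * ‖Complex.GammaSeq (1 + y * Complex.I) n‖) atTop
      (𝓝 (Real.Gamma x * ‖Complex.Gamma (1 + y * Complex.I)‖)) :=
    (Real.GammaSeq_tendsto_Gamma x).mul (Complex.GammaSeq_tendsto_Gamma _).norm
  have h2 : Tendsto (fun n => ‖Complex.GammaSeq (x + y * Complex.I) n‖ * Real.GammaSeq 1 n) atTop
      (𝓝 (‖Complex.Gamma (x + y * Complex.I)‖ * Real.Gamma 1)) :=
    (Complex.GammaSeq_tendsto_Gamma _).norm.mul (Real.GammaSeq_tendsto_Gamma 1)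
  have := le_of_tendsto_of_tendsto' h1 h2 (fun n => norm_GammaSeq_ge hx n)
  simpa using this

/-- `|Γ(1+iy)|² = πy / sinh(πy)`, in the form of a lower bound. -/
lemma norm_Gamma_one_add_ge (y : ℝ) :
    Real.exp (-(π * |y| / 2)) ≤ ‖Complex.Gamma (1 + y * Complex.I)‖ := by
  rcases eq_or_ne y 0 with hy | hy
  · simp [hy]
  have hyI : (y * Complex.I : ℂ) ≠ 0 := by simp [hy]
  have h1 : Complex.Gamma (1 + y * Complex.I) * Complex.Gamma (1 - y * Complex.I) =
      y * Complex.I * (π / Complex.sin (π * (y * Complex.I))) := by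
    rw [add_comm, Complex.Gamma_add_one _ hyI, mul_assoc, Complex.Gamma_mul_Gamma_one_sub]
  have h2 : ‖Complex.Gamma (1 - y * Complex.I)‖ = ‖Complex.Gamma (1 + y * Complex.I)‖ := by
    rw [← Complex.norm_conj (Complex.Gamma (1 + y * Complex.I)), ← Complex.Gamma_conj]
    simp [sub_eq_add_neg]
  have h3 : Complex.sin (π * (y * Complex.I)) = (Real.sinh (π * y) : ℂ) * Complex.I := by
    rw [show (π * (y * Complex.I) : ℂ) = (π * y : ℂ) * Complex.I by ring, Complex.sin_mul_I]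
    push_cast
    ring
  have hsinh : Real.sinh (π * |y|) ≤ π * |y| * Real.exp (π * |y|) := by
    have h0 : 0 ≤ π * |y| := by positivity
    set t := π * |y|
    rw [Real.sinh_eq]
    have : 1 - 2 * t ≤ Real.exp (-(2 * t)) := by
      have := Real.add_one_le_exp (-(2 * t))
      linarith
    have e : Real.exp (-t) = Real.exp t * Real.exp (-(2 * t)) := by
      rw [← Real.exp_add]; congr 1; ring
    rw [e]
    have hp := Real.exp_pos t
    nlinarith
  have hsp : 0 < Real.sinh (π * |y|) := Real.sinh_pos_iff.2 (by positivity)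
  have h4 : ‖Complex.Gamma (1 + y * Complex.I)‖ ^ 2 = π * |y| / Real.sinh (π * |y|) := by
    have : ‖Complex.Gamma (1 + y * Complex.I) * Complex.Gamma (1 - y * Complex.I)‖ =
      ‖Complex.Gamma (1 + y * Complex.I)‖ ^ 2 := by
      rw [norm_mul, h2, sq]
    rw [← this, h1, h3]
    simp only [norm_mul, norm_div, Complex.norm_real, Complex.norm_I, mul_one, Real.norm_eq_abs]
    have e2 : |Real.sinh (π * y)| = Real.sinh (π * |y|) := by
      rw [Real.abs_sinh, abs_mul, abs_of_pos Real.pi_pos]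
    rw [e2, abs_of_pos Real.pi_pos]
    ring
  have h5 : Real.exp (-(π * |y|)) ≤ ‖Complex.Gamma (1 + y * Complex.I)‖ ^ 2 := by
    rw [h4, le_div_iff₀ hsp]
    have hp := Real.exp_pos (-(π * |y|))
    calc Real.exp (-(π * |y|)) * Real.sinh (π * |y|) ≤
        Real.exp (-(π * |y|)) * (π * |y| * Real.exp (π * |y|)) := by gcongr
      _ = π * |y| * (Real.exp (-(π * |y|)) * Real.exp (π * |y|)) := by ring
      _ = π * |y| := by rw [← Real.exp_add]; simp
  have h6 : Real.exp (-(π * |y| / 2)) ^ 2 ≤ ‖Complex.Gamma (1 + y * Complex.I)‖ ^ 2 := by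
    rw [← Real.exp_nat_mul]
    refine le_trans (le_of_eq ?_) h5
    congr 1
    push_cast
    ring
  exact (pow_le_pow_iff_left₀ (Real.exp_pos _).le (norm_nonneg _) two_ne_zero).1 h6

/-- Lower bound for `|Γ(s)|`, `Re s ≥ 1`. -/
lemma norm_Gamma_ge {s : ℂ} (hs : 1 ≤ s.re) :
    Real.Gamma s.re * Real.exp (-(π * |s.im| / 2)) ≤ ‖Complex.Gamma s‖ := by
  have h := Gamma_mul_le (x := s.re) (y := s.im) hs
  rw [Complex.re_add_im] at h
  refine le_trans ?_ h
  have : 0 ≤ Real.Gamma s.re := Real.Gamma_nonneg_of_nonneg (by linarith)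
  gcongr
  exact norm_Gamma_one_add_ge s.im

/-- Elementary lower bound for real `Γ`. -/
lemma Gamma_ge {x : ℝ} (hx : 1 ≤ x) : Real.exp (x * Real.log x - 2 * x) ≤ Real.Gamma x := by
  have hx0 : 0 < x := by linarith
  rw [Real.Gamma_eq_integral hx0]
  have hint := Real.GammaIntegral_convergent hx0
  have h1 : ∫ t in Set.Ioc x (x + 1), Real.exp (-(x + 1)) * x ^ (x - 1) ≤
      ∫ t in Set.Ioi (0 : ℝ), Real.exp (-t) * t ^ (x - 1) := by
    have h2 : ∫ t in Set.Ioc x (x + 1), Real.exp (-(x + 1)) * x ^ (x - 1) ≤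
        ∫ t in Set.Ioc x (x + 1), Real.exp (-t) * t ^ (x - 1) := by
      apply setIntegral_mono_on
      · exact integrableOn_const (by simp)
      · exact hint.mono_set (fun t ht => hx0.trans ht.1)
      · exact measurableSet_Ioc
      · intro t ht
        have h3 : Real.exp (-(x + 1)) ≤ Real.exp (-t) := Real.exp_le_exp.2 (by linarith [ht.2])
        have h4 : x ^ (x - 1) ≤ t ^ (x - 1) :=
          Real.rpow_le_rpow hx0.le ht.1.le (by linarith)
        have h5 : 0 ≤ x ^ (x - 1) := Real.rpow_nonneg hx0.le _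
        gcongr
    refine h2.trans (setIntegral_mono_set hint ?_ ?_)
    · filter_upwards [ae_restrict_mem measurableSet_Ioi] with t ht
      have : (0 : ℝ) < t := ht
      positivity
    · exact LE.le.eventuallyLE (fun t ht => hx0.trans ht.1)
  refine le_trans ?_ h1
  rw [setIntegral_const]
  simp only [Measure.real, Real.volume_Ioc]
  rw [show x + 1 - x = 1 by ring]
  simp only [ENNReal.ofReal_one, ENNReal.toReal_one, one_smul]
  rw [Real.rpow_def_of_pos hx0, ← Real.exp_add]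
  apply Real.exp_le_exp.2
  have := Real.log_le_sub_one_of_pos hx0
  nlinarith

/-- Elementary upper bound for real `Γ`. -/
lemma Gamma_le {x : ℝ} (hx : 1 ≤ x) : Real.Gamma x ≤ Real.exp (x * Real.log x) := by
  have hx0 : 0 < x := by linarith
  have hlog : 0 ≤ Real.log x := Real.log_nonneg hx
  rcases le_or_gt x 2 with h | h
  · have h1 : Real.Gamma x ≤ 1 := by
      have hc := Real.convexOn_Gamma
      have h2 := hc.2 (show (1 : ℝ) ∈ Ioi 0 by simp) (show (2 : ℝ) ∈ Ioi 0 by simp)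
        (show 0 ≤ 2 - x by linarith) (show 0 ≤ x - 1 by linarith) (by ring)
      simp only [smul_eq_mul] at h2
      rw [Real.Gamma_one, Real.Gamma_two] at h2
      have e : (2 - x) * 1 + (x - 1) * 2 = x := by ring
      rw [e] at h2
      linarith
    have : 1 ≤ Real.exp (x * Real.log x) := Real.one_le_exp (by positivity)
    linarith
  · have h1 : Real.Gamma x ≤ Real.Gamma (⌊x⌋₊ + 1) := by
      apply Real.Gamma_strictMonoOn_Ici.monotoneOn h.le
      · have := Nat.lt_floor_add_one x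
        simp only [Set.mem_Ici]
        linarith
      · exact (Nat.lt_floor_add_one x).le
    rw [Real.Gamma_nat_eq_factorial] at h1
    have h2 : (⌊x⌋₊.factorial : ℝ) ≤ (⌊x⌋₊ : ℝ) ^ ⌊x⌋₊ := by
      exact_mod_cast Nat.factorial_le_pow ⌊x⌋₊
    have hfl : (⌊x⌋₊ : ℝ) ≤ x := Nat.floor_le hx0.le
    have h3 : (⌊x⌋₊ : ℝ) ^ ⌊x⌋₊ ≤ x ^ ⌊x⌋₊ := by gcongr
    have h4 : x ^ ⌊x⌋₊ ≤ x ^ x := by
      rw [← Real.rpow_natCast]
      exact Real.rpow_le_rpow_of_exponent_le hx hfl
    have h5 : x ^ x = Real.exp (x * Real.log x) := by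
      rw [Real.rpow_def_of_pos hx0, mul_comm]
    linarith

end Pool.Agent.Lib.ZetaCount_helper33
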