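import Mathlib

set_option autoImplicit false

open Filter MeasureTheory Topology Set Metric
open scoped Real

namespace Pool.Agent.Lib.ZetaCount_helper33

variable {f : ℂ → ℂ}

lemma analyticOnNhd_of_diff (hf : Differentiable ℂ f) (U : Set ℂ) : AnalyticOnNhd ℂ f U :=
  fun x _ => hf.analyticAt x

lemma order_ne_top (hf : Differentiable ℂ f) {c : ℂ} (hc : f c ≠ 0) (u : ℂ) :
    analyticOrderAt f u ≠ ⊤ := by
  intro h
  rw [analyticOrderAt_eq_top] at h
  have h2 := (analyticOnNhd_of_diff hf Set.univ).eqOn_zero_of_preconnected_of_eventuallyEq_zero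
    isPreconnected_univ (Set.mem_univ u) h
  exact hc (h2 (Set.mem_univ c))

lemma zeros_finite (hf : Differentiable ℂ f) {c : ℂ} (hc : f c ≠ 0) (R : ℝ) :
    {u : ℂ | u ∈ closedBall c R ∧ f u = 0}.Finite := by
  have hD := (MeromorphicOn.divisor f (closedBall c R)).finiteSupport (isCompact_closedBall c R)
  refine hD.subset ?_
  rintro u ⟨hu, h0⟩
  rw [Function.mem_support, MeromorphicOn.AnalyticOnNhd.divisor_apply (analyticOnNhd_of_diff hf _) hu]
  have h1 : analyticOrderAt f u ≠ 0 := by
    rw [Ne, (hf.analyticAt u).analyticOrderAt_eq_zero]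
    simpa using h0
  have h2 := order_ne_top hf hc u
  lift analyticOrderAt f u to ℕ using h2 with n hn
  simpa using h1

/-- The zeros in a closed disc. -/
noncomputable def zset (hf : Differentiable ℂ f) {c : ℂ} (hc : f c ≠ 0) (R : ℝ) : Finset ℂ :=
  (zeros_finite hf hc R).toFinset

lemma mem_zset (hf : Differentiable ℂ f) {c : ℂ} (hc : f c ≠ 0) (R : ℝ) (u : ℂ) :
    u ∈ zset hf hc R ↔ u ∈ closedBall c R ∧ f u = 0 := by
  simp [zset]

/-- The number of zeros in a closed disc, with multiplicity. -/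
noncomputable def zcount (hf : Differentiable ℂ f) {c : ℂ} (hc : f c ≠ 0) (R : ℝ) : ℕ :=
  ∑ u ∈ zset hf hc R, analyticOrderNatAt f u

/-- Jensen's formula as a finite sum. -/
lemma jensen (hf : Differentiable ℂ f) {c : ℂ} (hc : f c ≠ 0) {R : ℝ} (hR : 0 < R) :
    Real.circleAverage (fun z => Real.log ‖f z‖) c R =
      ∑ u ∈ zset hf hc R, (analyticOrderNatAt f u : ℝ) * Real.log (R / ‖c - u‖) +
        Real.log ‖f c‖ := by
  have hA := analyticOnNhd_of_diff hf (closedBall c |R|)
  rw [hA.circleAverage_log_norm hR.ne' hc]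
  congr 1
  rw [finsum_eq_sum_of_support_subset (s := zset hf hc R)]
  · apply Finset.sum_congr rfl
    intro u hu
    rw [mem_zset] at hu
    rw [abs_of_pos hR] at hA ⊢
    rw [MeromorphicOn.AnalyticOnNhd.divisor_apply hA hu.1, div_eq_mul_inv]
    congr 1
    have h2 := order_ne_top hf hc u
    rw [analyticOrderNatAt]
    lift analyticOrderAt f u to ℕ using h2 with n hn
    simp
  · intro u hu
    rw [Function.mem_support] at hu
    have h1 : MeromorphicOn.divisor f (closedBall c |R|) u ≠ 0 := by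
      intro h
      rw [h] at hu
      simp at hu
    have h2 : u ∈ closedBall c |R| :=
      (MeromorphicOn.divisor f (closedBall c |R|)).supportWithinDomain h1
    simp only [Finset.mem_coe, mem_zset]
    rw [abs_of_pos hR] at h2
    refine ⟨h2, ?_⟩
    by_contra h0
    apply h1
    rw [MeromorphicOn.AnalyticOnNhd.divisor_apply hA (by rwa [abs_of_pos hR]), (hf.analyticAt u).analyticOrderAt_eq_zero.2 h0]
    simp

lemma jensen_diff (hf : Differentiable ℂ f) {c : ℂ} (hc : f c ≠ 0) {r R : ℝ} (hr : 0 < r)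
    (hrR : r ≤ R) :
    (zcount hf hc r : ℝ) * Real.log (R / r) ≤
      Real.circleAverage (fun z => Real.log ‖f z‖) c R -
        Real.circleAverage (fun z => Real.log ‖f z‖) c r ∧
    Real.circleAverage (fun z => Real.log ‖f z‖) c R -
        Real.circleAverage (fun z => Real.log ‖f z‖) c r ≤
      (zcount hf hc R : ℝ) * Real.log (R / r) := by
  have hR : 0 < R := by linarith
  rw [jensen hf hc hR, jensen hf hc hr]
  have hsub : zset hf hc r ⊆ zset hf hc R := by
    intro u hu
    rw [mem_zset] at hu ⊢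
    exact ⟨closedBall_subset_closedBall hrR hu.1, hu.2⟩
  have hpos : ∀ u : ℂ, f u = 0 → 0 < ‖c - u‖ := by
    intro u hu
    rw [norm_pos_iff, sub_ne_zero]
    rintro rfl
    exact hc hu
  have e1 : ∀ u ∈ zset hf hc r, Real.log (R / ‖c - u‖) - Real.log (r / ‖c - u‖) =
      Real.log (R / r) := by
    intro u hu
    rw [mem_zset] at hu
    have := hpos u hu.2
    rw [Real.log_div hR.ne' this.ne', Real.log_div hr.ne' this.ne', Real.log_div hR.ne' hr.ne']
    ring
  have e2 : ∀ u ∈ zset hf hc R \ zset hf hc r, 0 ≤ Real.log (R / ‖c - u‖) ∧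
      Real.log (R / ‖c - u‖) ≤ Real.log (R / r) := by
    intro u hu
    rw [Finset.mem_sdiff, mem_zset, mem_zset] at hu
    have h1 := hpos u hu.1.2
    have h2 : ‖c - u‖ ≤ R := by
      have := hu.1.1
      rwa [mem_closedBall, dist_comm, dist_eq_norm] at this
    have h3 : r < ‖c - u‖ := by
      by_contra h
      push Not at h
      apply hu.2
      refine ⟨?_, hu.1.2⟩
      rw [mem_closedBall, dist_comm, dist_eq_norm]
      exact h
    constructor
    · apply Real.log_nonneg
      rw [le_div_iff₀ h1]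
      linarith
    · apply Real.log_le_log (by positivity)
      gcongr
  rw [← Finset.sum_sdiff hsub, zcount, zcount]
  have e3 : (∑ u ∈ zset hf hc R \ zset hf hc r, (analyticOrderNatAt f u : ℝ) *
      Real.log (R / ‖c - u‖) + ∑ u ∈ zset hf hc r, (analyticOrderNatAt f u : ℝ) *
      Real.log (R / ‖c - u‖) + Real.log ‖f c‖ -
      (∑ u ∈ zset hf hc r, (analyticOrderNatAt f u : ℝ) *
      Real.log (r / ‖c - u‖) + Real.log ‖f c‖)) =
      ∑ u ∈ zset hf hc R \ zset hf hc r, (analyticOrderNatAt f u : ℝ) *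
      Real.log (R / ‖c - u‖) + (∑ u ∈ zset hf hc r, (analyticOrderNatAt f u : ℝ)) *
        Real.log (R / r) := by
    have : ∑ u ∈ zset hf hc r, (analyticOrderNatAt f u : ℝ) *
      Real.log (R / ‖c - u‖) - ∑ u ∈ zset hf hc r, (analyticOrderNatAt f u : ℝ) *
      Real.log (r / ‖c - u‖) = (∑ u ∈ zset hf hc r, (analyticOrderNatAt f u : ℝ)) *
        Real.log (R / r) := by
      rw [← Finset.sum_sub_distrib, Finset.sum_mul]
      apply Finset.sum_congr rfl
      intro u hu
      rw [← mul_sub, e1 u hu]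
    linarith
  rw [e3]
  constructor
  · push_cast
    have : 0 ≤ ∑ u ∈ zset hf hc R \ zset hf hc r, (analyticOrderNatAt f u : ℝ) *
      Real.log (R / ‖c - u‖) := by
      apply Finset.sum_nonneg
      intro u hu
      have := (e2 u hu).1
      positivity
    linarith
  · rw [← Finset.sum_sdiff hsub]
    push_cast
    rw [add_mul, add_le_add_iff_right, Finset.sum_mul]
    apply Finset.sum_le_sum
    intro u hu
    have := (e2 u hu).2
    gcongr

lemma circleAverage_mono_radius (hf : Differentiable ℂ f) {c : ℂ} (hc : f c ≠ 0) {r R : ℝ}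
    (hr : 0 < r) (hrR : r ≤ R) :
    Real.circleAverage (fun z => Real.log ‖f z‖) c r ≤
      Real.circleAverage (fun z => Real.log ‖f z‖) c R := by
  have h := (jensen_diff hf hc hr hrR).1
  have h2 : 0 ≤ Real.log (R / r) := Real.log_nonneg (by rwa [le_div_iff₀ hr, one_mul])
  have h3 : (0 : ℝ) ≤ (zcount hf hc r : ℝ) * Real.log (R / r) := by positivity
  linarith

lemma log_norm_le_circleAverage (hf : Differentiable ℂ f) {c : ℂ} (hc : f c ≠ 0) {R : ℝ}
    (hR : 0 < R) :
    Real.log ‖f c‖ ≤ Real.circleAverage (fun z => Real.log ‖f z‖) c R := by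
  rw [jensen hf hc hR]
  have : 0 ≤ ∑ u ∈ zset hf hc R, (analyticOrderNatAt f u : ℝ) * Real.log (R / ‖c - u‖) := by
    apply Finset.sum_nonneg
    intro u hu
    rw [mem_zset] at hu
    have h1 : 0 < ‖c - u‖ := by
      rw [norm_pos_iff, sub_ne_zero]
      rintro rfl
      exact hc hu.2
    have h2 : ‖c - u‖ ≤ R := by
      have := hu.1
      rwa [mem_closedBall, dist_comm, dist_eq_norm] at this
    have : 0 ≤ Real.log (R / ‖c - u‖) := by
      apply Real.log_nonneg
      rw [le_div_iff₀ h1]
      linarith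
    positivity
  linarith

lemma circleIntegrable_log (hf : Differentiable ℂ f) (c : ℂ) (R : ℝ) :
    CircleIntegrable (fun z => Real.log ‖f z‖) c R :=
  MeromorphicOn.circleIntegrable_log_norm
    ((analyticOnNhd_of_diff hf _).meromorphicOn)

end Pool.Agent.Lib.ZetaCount_helper33
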