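import Pool.Agent.Lib.ZetaCount_helper33.JensenCount

set_option autoImplicit false

open Filter MeasureTheory Topology Set Metric
open scoped Real ENNReal

namespace Pool.Agent.Lib.ZetaCount_helper33

lemma measurable_circleMap_prod (c : ℂ) : Measurable (fun p : ℝ × ℝ => circleMap c p.1 p.2) := by
  unfold circleMap
  fun_prop

/-- Polar coordinates around an arbitrary centre. -/
lemma lintegral_polar (c : ℂ) {F : ℂ → ℝ≥0∞} (hF : Measurable F) :
    ∫⁻ z, F z = ∫⁻ r in Ioi (0 : ℝ), ENNReal.ofReal r *
      ∫⁻ θ in Ioo (-π) π, F (circleMap c r θ) := by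
  have h1 : ∫⁻ z, F z = ∫⁻ z, F (c + z) := (lintegral_add_left_eq_self F c).symm
  rw [h1, ← Complex.lintegral_comp_polarCoord_symm (fun z => F (c + z))]
  have h2 : ∀ p : ℝ × ℝ, F (c + Complex.polarCoord.symm p) = F (circleMap c p.1 p.2) := by
    intro p
    congr 1
    rw [Complex.polarCoord_symm_apply, circleMap, Complex.exp_mul_I]
    push_cast
    rfl
  simp_rw [h2]
  have h3 : polarCoord.target = Ioi (0 : ℝ) ×ˢ Ioo (-π) π := rfl
  rw [h3, Measure.volume_eq_prod, ← Measure.prod_restrict]
  rw [lintegral_prod]
  · apply lintegral_congr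
    intro r
    simp only [smul_eq_mul]
    rw [lintegral_const_mul]
    exact hF.comp ((measurable_circleMap_prod c).comp (measurable_const.prodMk measurable_id))
  · apply Measurable.aemeasurable
    simp only [smul_eq_mul]
    exact (ENNReal.measurable_ofReal.comp measurable_fst).mul
      (hF.comp (measurable_circleMap_prod c))

lemma intervalIntegral_circle (g : ℂ → ℝ) (c : ℂ) (R : ℝ) :
    ∫ θ in (-π)..π, g (circleMap c R θ) = 2 * π * Real.circleAverage g c R := by
  rw [Real.circleAverage_eq_integral_add (-π)]
  rw [intervalIntegral.integral_comp_add_right (fun θ => g (circleMap c R θ))]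
  simp only [smul_eq_mul]
  rw [← mul_assoc, mul_inv_cancel₀ (by positivity), one_mul]
  congr 1 <;> ring

lemma circleIntegrable_pi {g : ℂ → ℝ} {c : ℂ} {R : ℝ} (hg : CircleIntegrable g c R) :
    IntervalIntegrable (fun θ => g (circleMap c R θ)) volume (-π) π := by
  have hper : Function.Periodic (fun θ : ℝ => g (circleMap c R θ)) (2 * π) :=
    fun x => by simp [periodic_circleMap c R x]
  exact hper.intervalIntegrable₀ Real.two_pi_pos.ne' hg (-π) π

variable {f : ℂ → ℂ}

lemma measurable_log_norm (hf : Differentiable ℂ f) : Measurable (fun z => Real.log ‖f z‖) :=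
  Real.measurable_log.comp hf.continuous.norm.measurable

/-- The negative part of `log |f|` on a circle. -/
lemma lintegral_neg_circle (hf : Differentiable ℂ f) {P : ℂ} (hP : f P ≠ 0) {ρ B : ℝ}
    (hρ : 0 < ρ) (hB : 0 ≤ B) (hb : ∀ z ∈ sphere P ρ, Real.log ‖f z‖ ≤ B) :
    ∫⁻ θ in Ioo (-π) π, ENNReal.ofReal (-Real.log ‖f (circleMap P ρ θ)‖) ≤
      ENNReal.ofReal (2 * π * (B - Real.log ‖f P‖)) := by
  have hmem : ∀ θ, circleMap P ρ θ ∈ sphere P ρ := fun θ => circleMap_mem_sphere P hρ.le θ
  have hint := circleIntegrable_pi (circleIntegrable_log hf P ρ)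
  have hle : (-π) ≤ π := by linarith [Real.pi_pos]
  calc ∫⁻ θ in Ioo (-π) π, ENNReal.ofReal (-Real.log ‖f (circleMap P ρ θ)‖) ≤
      ∫⁻ θ in Ioc (-π) π, ENNReal.ofReal (B - Real.log ‖f (circleMap P ρ θ)‖) := by
        refine (lintegral_mono_set Ioo_subset_Ioc_self).trans (lintegral_mono fun θ => ?_)
        apply ENNReal.ofReal_le_ofReal
        linarith
    _ = ENNReal.ofReal (∫ θ in Ioc (-π) π, (B - Real.log ‖f (circleMap P ρ θ)‖)) := by
        rw [ofReal_integral_eq_lintegral_ofReal]
        · have h1 : IntegrableOn (fun _ : ℝ => B) (Ioc (-π) π) := integrableOn_const (by simp)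
          have h2 := (intervalIntegrable_iff_integrableOn_Ioc_of_le hle).1 hint
          exact h1.sub h2
        · exact Filter.Eventually.of_forall fun θ => sub_nonneg.2 (hb _ (hmem θ))
    _ ≤ _ := by
        apply ENNReal.ofReal_le_ofReal
        rw [← intervalIntegral.integral_of_le hle, intervalIntegral.integral_sub (by simp) hint,
          intervalIntegral_circle (fun z => Real.log ‖f z‖)]
        have := log_norm_le_circleAverage hf hP hρ
        simp only [intervalIntegral.integral_const, smul_eq_mul]
        have h2 : 2 * π * Real.log ‖f P‖ ≤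
            2 * π * Real.circleAverage (fun z => Real.log ‖f z‖) P ρ := by
          gcongr
        linarith

/-- The negative part of `log |f|` on a disc. -/
lemma lintegral_neg_ball (hf : Differentiable ℂ f) {P : ℂ} (hP : f P ≠ 0) {B : ℝ}
    (hB : 0 ≤ B) (hb : ∀ z ∈ closedBall P 5, Real.log ‖f z‖ ≤ B) :
    ∫⁻ z in ball P 5, ENNReal.ofReal (-Real.log ‖f z‖) ≤
      ENNReal.ofReal (25 * (2 * π * (B - Real.log ‖f P‖))) := by
  have hm : Measurable (fun z => ENNReal.ofReal (-Real.log ‖f z‖)) :=
    ENNReal.measurable_ofReal.comp (measurable_log_norm hf).neg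
  rw [← lintegral_indicator measurableSet_ball]
  rw [lintegral_polar P (hm.indicator measurableSet_ball)]
  have hK : 0 ≤ 2 * π * (B - Real.log ‖f P‖) := by
    have := hb P (by simp)
    have : 0 ≤ B - Real.log ‖f P‖ := by linarith
    positivity
  calc ∫⁻ r in Ioi (0 : ℝ), ENNReal.ofReal r * ∫⁻ θ in Ioo (-π) π,
        (ball P 5).indicator (fun z => ENNReal.ofReal (-Real.log ‖f z‖)) (circleMap P r θ) ≤
      ∫⁻ r in Ioi (0 : ℝ), (Ioo (0 : ℝ) 5).indicator (fun _ => ENNReal.ofReal 5 *
        ENNReal.ofReal (2 * π * (B - Real.log ‖f P‖))) r := by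
        apply setLIntegral_mono
        · exact measurable_const.indicator measurableSet_Ioo
        intro r hr
        have hr0 : (0 : ℝ) < r := hr
        by_cases h5 : r < 5
        · rw [indicator_of_mem (show r ∈ Ioo (0 : ℝ) 5 from ⟨hr0, h5⟩)]
          gcongr
          refine le_trans (lintegral_mono fun θ => ?_)
            (lintegral_neg_circle hf hP hr0 hB (fun z hz => hb z ?_))
          · exact indicator_le_self _ _ _
          · rw [mem_sphere] at hz
            rw [mem_closedBall, hz]
            exact h5.le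
        · have : ∀ θ, (ball P 5).indicator (fun z => ENNReal.ofReal (-Real.log ‖f z‖))
              (circleMap P r θ) = 0 := by
            intro θ
            rw [indicator_of_notMem]
            have := circleMap_mem_sphere P hr0.le θ
            rw [mem_sphere] at this
            rw [mem_ball, this]
            exact h5
          simp [this]
    _ ≤ _ := by
        rw [setLIntegral_indicator measurableSet_Ioo, setLIntegral_const]
        have h1 : Ioo (0 : ℝ) 5 ∩ Ioi 0 = Ioo 0 5 := by
          ext x
          simp only [mem_inter_iff, mem_Ioo, mem_Ioi]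
          tauto
        rw [h1, Real.volume_Ioo, sub_zero, ← ENNReal.ofReal_mul (by norm_num),
          ← ENNReal.ofReal_mul (by positivity)]
        apply ENNReal.ofReal_le_ofReal
        linarith

end Pool.Agent.Lib.ZetaCount_helper33
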