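import Pool.Agent.Lib.ZetaCount_helper33.XiAvg
import Pool.Agent.MP_67227b_nt.Asymp

set_option autoImplicit false

open Filter MeasureTheory Topology Set Metric
open scoped Real ENNReal

namespace Pool.Agent.Lib.ZetaCount_helper33

open Pool.Agent.MP_67227b_nt (UB LB UB_of_tendsto LB_of_tendsto tendsto_of_UB_LB UB_of_forall
  LB_of_forall)

/-- The number of zeros of `xi` in the closed disc of radius `R` around `2`. -/
noncomputable def nxi (R : ℝ) : ℕ := zcount differentiable_xi xi_two_ne_zero R

lemma tendsto_const_div_log (K : ℝ) (a : ℝ) :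
    Tendsto (fun R : ℝ => a + K / Real.log R) atTop (𝓝 a) := by
  have := (Real.tendsto_log_atTop.const_div_atTop K).const_add a
  simpa using this

lemma nxi_UB : UB (fun R => (nxi R : ℝ) / (R * Real.log R)) (1 / π) := by
  obtain ⟨C, hC, hA⟩ := exists_A_bounds
  have hpi := Real.pi_pos
  apply UB_of_forall
  intro ε hε
  have key : ∀ η : ℝ, 0 < η →
      UB (fun R => (nxi R : ℝ) / (R * Real.log R)) ((1 + η) / π) := by
    intro η hη
    set K : ℝ := (1 + η) / π * Real.log (1 + η) + C * (2 + η) with hK
    have hlog1 : 0 ≤ Real.log (1 + η) := Real.log_nonneg (by linarith)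
    have hK0 : 0 < K := by positivity
    refine (UB_of_tendsto (tendsto_const_div_log ((1 + η) / η * K) ((1 + η) / π))).mono ?_ le_rfl
    filter_upwards [eventually_ge_atTop (20 : ℝ)] with R hR
    have hR0 : 0 < R := by linarith
    have hlogR : 0 < Real.log R := Real.log_pos (by linarith)
    have h1 := (jensen_diff differentiable_xi xi_two_ne_zero hR0
      (show R ≤ (1 + η) * R by nlinarith)).1
    have e1 : (1 + η) * R / R = 1 + η := by field_simp
    rw [e1] at h1
    have h2 := (abs_le.1 (hA R hR)).1
    have h3 := (abs_le.1 (hA ((1 + η) * R) (by nlinarith))).2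
    unfold A at h2 h3
    rw [Real.log_mul (by positivity) (by positivity)] at h3
    have h4 : (nxi R : ℝ) * Real.log (1 + η) ≤ η / π * (R * Real.log R) + K * R := by
      have e2 : (1 + η) * R / π * (Real.log (1 + η) + Real.log R) - R / π * Real.log R =
        η / π * (R * Real.log R) + (1 + η) / π * Real.log (1 + η) * R := by
        field_simp; ring
      rw [nxi, hK]
      linarith
    have h5 : η / (1 + η) ≤ Real.log (1 + η) := by
      have := Real.one_sub_inv_le_log_of_pos (show 0 < 1 + η by linarith)
      have e3 : 1 - (1 + η)⁻¹ = η / (1 + η) := by field_simp; ring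
      rwa [e3] at this
    have h6 : (nxi R : ℝ) * (η / (1 + η)) ≤ η / π * (R * Real.log R) + K * R := by
      refine le_trans ?_ h4
      gcongr
    rw [div_le_iff₀ (by positivity)]
    have e4 : ((1 + η) / π + (1 + η) / η * K / Real.log R) * (R * Real.log R) =
        (1 + η) / η * (η / π * (R * Real.log R) + K * R) := by
      field_simp
    rw [e4]
    have e5 : (nxi R : ℝ) = (1 + η) / η * ((nxi R : ℝ) * (η / (1 + η))) := by
      field_simp
    rw [e5]
    gcongr
  refine (key (π * ε) (by positivity)).mono (Filter.Eventually.of_forall fun _ => le_rfl) ?_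
  rw [add_div, mul_div_cancel_left₀ _ hpi.ne']

lemma nxi_LB : LB (fun R => (nxi R : ℝ) / (R * Real.log R)) (1 / π) := by
  obtain ⟨C, hC, hA⟩ := exists_A_bounds
  have hpi := Real.pi_pos
  apply LB_of_forall
  intro ε hε
  have key : ∀ η : ℝ, 0 < η →
      LB (fun R => (nxi R : ℝ) / (R * Real.log R)) (1 / ((1 + η) * π)) := by
    intro η hη
    refine (LB_of_tendsto (tendsto_const_div_log (-(2 * C / η)) (1 / ((1 + η) * π)))).mono ?_
      le_rfl
    filter_upwards [eventually_ge_atTop (20 * (1 + η) : ℝ)] with R hR
    have hR20 : 20 ≤ R := by nlinarith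
    have hR0 : 0 < R := by linarith
    have hlogR : 0 < Real.log R := Real.log_pos (by linarith)
    have hr20 : 20 ≤ R / (1 + η) := by rw [le_div_iff₀ (by linarith)]; linarith
    have hrR : R / (1 + η) ≤ R := div_le_self hR0.le (by linarith)
    have h1 := (jensen_diff differentiable_xi xi_two_ne_zero (show 0 < R / (1 + η) by linarith)
      hrR).2
    have e1 : R / (R / (1 + η)) = 1 + η := by field_simp
    rw [e1] at h1
    have h2 := (abs_le.1 (hA R hR20)).1
    have h3 := (abs_le.1 (hA (R / (1 + η)) hr20)).2
    unfold A at h2 h3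
    have h4 : R / (1 + η) / π * Real.log (R / (1 + η)) ≤ R / (1 + η) / π * Real.log R := by
      have : Real.log (R / (1 + η)) ≤ Real.log R := Real.log_le_log (by linarith) hrR
      gcongr
    have h5 : Real.log (1 + η) ≤ η := by
      have := Real.log_le_sub_one_of_pos (show 0 < 1 + η by linarith)
      linarith
    have h6 : R / π * Real.log R - R / (1 + η) / π * Real.log R - 2 * C * R ≤
        (nxi R : ℝ) * η := by
      have h7 : (nxi R : ℝ) * Real.log (1 + η) ≤ (nxi R : ℝ) * η := by gcongr
      have h8 : C * (R / (1 + η)) ≤ C * R := by gcongr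
      rw [nxi] at h7 ⊢
      linarith
    rw [le_div_iff₀ (by positivity)]
    have e4 : (1 / ((1 + η) * π) + -(2 * C / η) / Real.log R) * (R * Real.log R) * η =
        R / π * Real.log R - R / (1 + η) / π * Real.log R - 2 * C * R := by
      field_simp
      ring
    rw [← e4] at h6
    exact le_of_mul_le_mul_right h6 hη
  refine (key (π * ε) (by positivity)).mono (Filter.Eventually.of_forall fun _ => le_rfl) ?_
  have h1 : 1 / π - 1 / ((1 + π * ε) * π) = π * ε / ((1 + π * ε) * π) := by
    field_simp
    ring
  have h2 : π * ε / ((1 + π * ε) * π) ≤ ε := by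
    rw [div_le_iff₀ (by positivity)]
    have : 0 < π * ε := by positivity
    nlinarith
  linarith

lemma tendsto_nxi : Tendsto (fun R => (nxi R : ℝ) / (R * Real.log R)) atTop (𝓝 (1 / π)) :=
  tendsto_of_UB_LB nxi_UB nxi_LB

end Pool.Agent.Lib.ZetaCount_helper33
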