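import Pool.Agent.Lib.ZetaCount_helper33.XiCircle

set_option autoImplicit false

open Filter MeasureTheory Topology Set Metric
open scoped Real ENNReal

namespace Pool.Agent.Lib.ZetaCount_helper33

/-- The circle average of `log |xi|` over the circle of radius `R` around `2`. -/
noncomputable def A (R : ℝ) : ℝ := Real.circleAverage (fun z => Real.log ‖xi z‖) 2 R

lemma re_circleMap (R θ : ℝ) : (circleMap 2 R θ).re - 2 = R * Real.cos θ := by
  rw [circleMap, Complex.exp_mul_I]
  simp [Complex.cos_ofReal_re]

lemma abs_re_circleMap {R : ℝ} (hR : 0 ≤ R) (θ : ℝ) :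
    |(circleMap 2 R θ).re - 2| = R * |Real.cos θ| := by
  rw [re_circleMap, abs_mul, abs_of_nonneg hR]

lemma norm_circleMap_sub {R : ℝ} (hR : 0 ≤ R) (θ : ℝ) : ‖circleMap 2 R θ - 2‖ = R := by
  have := circleMap_mem_sphere (2 : ℂ) hR θ
  rwa [mem_sphere, dist_eq_norm] at this

lemma integral_main (R K : ℝ) :
    ∫ θ in (-π)..π, (R * |Real.cos θ| / 2 * Real.log R + K) =
      2 * π * (R / π * Real.log R + K) := by
  have h1 : IntervalIntegrable (fun θ => R * |Real.cos θ| / 2 * Real.log R) volume (-π) π := by
    apply Continuous.intervalIntegrable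
    fun_prop
  rw [intervalIntegral.integral_add h1 (by simp)]
  have h2 : (fun θ => R * |Real.cos θ| / 2 * Real.log R) =
      fun θ => (R / 2 * Real.log R) * |Real.cos θ| := by
    ext θ; ring
  rw [h2, intervalIntegral.integral_const_mul, integral_abs_cos]
  simp only [intervalIntegral.integral_const, smul_eq_mul]
  have := Real.pi_pos
  field_simp
  ring

lemma exists_A_bounds : ∃ C : ℝ, 0 < C ∧ ∀ R : ℝ, 20 ≤ R →
    |A R - R / π * Real.log R| ≤ C * R := by
  obtain ⟨C1, hC1, hb⟩ := exists_log_norm_xi_bounds
  obtain ⟨C2, hC2, hr⟩ := exists_good_radius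
  refine ⟨C1 + C2 + 10, by positivity, ?_⟩
  intro R hR
  have hpi := Real.pi_pos
  have hpi3 := Real.pi_gt_three
  have hupper : ∀ R : ℝ, 10 ≤ R → A R ≤ R / π * Real.log R + C1 * R := by
    intro R hR
    have h1 : 2 * π * A R ≤ 2 * π * (R / π * Real.log R + C1 * R) := by
      rw [A, ← intervalIntegral_circle, ← integral_main]
      apply intervalIntegral.integral_mono_on (by linarith)
      · exact circleIntegrable_pi (circleIntegrable_log differentiable_xi 2 R)
      · apply Continuous.intervalIntegrable
        fun_prop
      · intro θ _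
        have h2 := (hb R (circleMap 2 R θ) (by linarith) (norm_circleMap_sub (by linarith) θ).le).1
        rwa [abs_re_circleMap (by linarith)] at h2
    exact le_of_mul_le_mul_left h1 (by positivity)
  -- lower bound
  obtain ⟨r, hrR, hrC⟩ := hr R (by linarith)
  have hr0 : 0 < r := by linarith [hrR.1]
  have hr10 : 10 ≤ r := by linarith [hrR.1]
  have hlogr : 0 ≤ Real.log r := Real.log_nonneg (by linarith)
  have hlogr' : Real.log r ≤ r := by
    have := Real.log_le_sub_one_of_pos hr0
    linarith
  set W : ℝ → ℝ := fun θ => bad.indicator (fun z => max (-Real.log ‖xi z‖) 0) (circleMap 2 r θ)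
    with hW
  have hWm : Measurable W := by
    apply Measurable.comp (g := bad.indicator (fun z => max (-Real.log ‖xi z‖) 0))
    · exact ((measurable_log_norm differentiable_xi).neg.max measurable_const).indicator
        measurableSet_bad
    · exact (continuous_circleMap 2 r).measurable
  have hW0 : ∀ θ, 0 ≤ W θ := fun θ => indicator_nonneg (fun _ _ => le_max_right _ _) _
  have hWe : ∀ θ, ENNReal.ofReal (W θ) =
      bad.indicator (fun z => ENNReal.ofReal (-Real.log ‖xi z‖)) (circleMap 2 r θ) := by
    intro θ
    simp only [hW]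
    by_cases h : circleMap 2 r θ ∈ bad
    · rw [indicator_of_mem h, indicator_of_mem h, ENNReal.ofReal_max]
      simp
    · rw [indicator_of_notMem h, indicator_of_notMem h, ENNReal.ofReal_zero]
  have hWint : IntegrableOn W (Ioo (-π) π) := by
    refine ⟨hWm.aestronglyMeasurable, ?_⟩
    rw [hasFiniteIntegral_iff_ofReal (Filter.Eventually.of_forall hW0)]
    simp_rw [hWe]
    exact hrC.trans_lt ENNReal.ofReal_lt_top
  have hWi : ∫ θ in Ioo (-π) π, W θ ≤ C2 := by
    rw [integral_eq_lintegral_of_nonneg_ae (Filter.Eventually.of_forall hW0)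
      hWm.aestronglyMeasurable]
    simp_rw [hWe]
    exact ENNReal.toReal_le_of_le_ofReal hC2.le hrC
  have hWiv : IntervalIntegrable W volume (-π) π := by
    rw [intervalIntegrable_iff_integrableOn_Ioo_of_le (by linarith)]
    exact hWint
  have hWi' : ∫ θ in (-π)..π, W θ ≤ C2 := by
    rw [intervalIntegral.integral_of_le (by linarith), integral_Ioc_eq_integral_Ioo]
    exact hWi
  have hpt : ∀ θ, r * |Real.cos θ| / 2 * Real.log r + -((C1 + 2) * r) ≤
      Real.log ‖xi (circleMap 2 r θ)‖ + W θ := by
    intro θ
    set z := circleMap 2 r θ with hz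
    have hre : |z.re - 2| = r * |Real.cos θ| := abs_re_circleMap hr0.le θ
    by_cases hg : z ∈ bad
    · have h1 : W θ = max (-Real.log ‖xi z‖) 0 := by
        simp only [hW]
        rw [indicator_of_mem hg]
      have h2 : r * |Real.cos θ| ≤ 3 := by
        rw [← hre, abs_le]
        constructor <;> linarith [hg.1, hg.2]
      have h3 : r * |Real.cos θ| / 2 * Real.log r ≤ 2 * r := by
        have : r * |Real.cos θ| / 2 ≤ 2 := by linarith
        nlinarith
      have h4 : -Real.log ‖xi z‖ ≤ W θ := by rw [h1]; exact le_max_left _ _
      nlinarith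
    · have hg' : Good z := by
        by_contra h
        apply hg
        unfold Good at h
        push Not at h
        exact ⟨h.2, h.1⟩
      have h1 := (hb r z (by linarith) (norm_circleMap_sub hr0.le θ).le).2 hg'
      rw [hre] at h1
      have := hW0 θ
      nlinarith
  have hlow : r / π * Real.log r - (C1 + 2) * r - C2 ≤ A r := by
    have h1 : 2 * π * (r / π * Real.log r + -((C1 + 2) * r)) ≤ 2 * π * A r + C2 := by
      rw [A, ← intervalIntegral_circle, ← integral_main]
      have h2 := circleIntegrable_pi (circleIntegrable_log differentiable_xi 2 r)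
      calc _ ≤ ∫ θ in (-π)..π, (Real.log ‖xi (circleMap 2 r θ)‖ + W θ) := by
            apply intervalIntegral.integral_mono_on (by linarith)
            · apply Continuous.intervalIntegrable
              fun_prop
            · exact h2.add hWiv
            · intro θ _
              exact hpt θ
        _ ≤ _ := by
            rw [intervalIntegral.integral_add h2 hWiv]
            linarith
    have h3 : 2 * π * (r / π * Real.log r + -((C1 + 2) * r) - C2) ≤ 2 * π * A r := by
      have : C2 ≤ 2 * π * C2 := by nlinarith
      linarith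
    have h4 := le_of_mul_le_mul_left h3 (by positivity)
    linarith
  have hmono : A r ≤ A R := circleAverage_mono_radius differentiable_xi xi_two_ne_zero hr0 hrR.2.le
  have hcmp : R / π * Real.log R ≤ r / π * Real.log r + 3 * R := by
    have h1 : Real.log R ≤ Real.log r + 1 := by
      have h2 : R ≤ 2 * r := by linarith [hrR.1]
      have h3 : Real.log R ≤ Real.log (2 * r) := Real.log_le_log (by linarith) h2
      rw [Real.log_mul (by norm_num) hr0.ne'] at h3
      have h4 := Real.log_two_lt_d9
      linarith
    have h5 : R / π * Real.log R ≤ (r + 1) / π * Real.log R := by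
      have h6 : 0 ≤ Real.log R := Real.log_nonneg (by linarith)
      have : R ≤ r + 1 := by linarith [hrR.1]
      gcongr
    have h7 : (r + 1) / π * Real.log R ≤ (r + 1) / π * (Real.log r + 1) := by
      gcongr
    have h8 : (r + 1) / π * (Real.log r + 1) = r / π * Real.log r +
      (Real.log r + r + 1) / π := by field_simp; ring
    have h9 : (Real.log r + r + 1) / π ≤ 3 * R := by
      rw [div_le_iff₀ hpi]
      nlinarith [hrR.2]
    linarith
  rw [abs_le]
  constructor
  · nlinarith [hrR.2]
  · have := hupper R (by linarith)
    nlinarith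

end Pool.Agent.Lib.ZetaCount_helper33
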