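import Pool.Agent.Lib.ZetaCount_helper33.GammaBounds

set_option autoImplicit false

open Filter MeasureTheory Topology Set
open scoped Real

namespace Pool.Agent.Lib.ZetaCount_helper33

/-- The entire function `s (1 - s) Λ(s)`, where `Λ` is the completed zeta function. -/
noncomputable def xi (s : ℂ) : ℂ := s * (1 - s) * completedRiemannZeta₀ s - 1

lemma differentiable_xi : Differentiable ℂ xi := by
  unfold xi
  exact ((differentiable_id.mul ((differentiable_const 1).sub differentiable_id)).mul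
    differentiable_completedZeta₀).sub_const 1

lemma xi_one_sub (s : ℂ) : xi (1 - s) = xi s := by
  simp only [xi, completedRiemannZeta₀_one_sub]
  ring

lemma xi_eq {s : ℂ} (h0 : s ≠ 0) (h1 : s ≠ 1) :
    xi s = s * (1 - s) * completedRiemannZeta s := by
  have h2 : (1 : ℂ) - s ≠ 0 := sub_ne_zero.2 h1.symm
  rw [completedRiemannZeta_eq, xi]
  field_simp
  ring

lemma xi_eq' {s : ℂ} (h0 : s ≠ 0) (h1 : s ≠ 1) (hG : Complex.Gammaℝ s ≠ 0) :
    xi s = s * (1 - s) * Complex.Gammaℝ s * riemannZeta s := by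
  rw [xi_eq h0 h1, riemannZeta_def_of_ne_zero h0]
  field_simp

/-- A Mellin transform is bounded on vertical strips. -/
lemma exists_norm_mellin_le {f : ℝ → ℂ} {c d : ℝ} (hc : MellinConvergent f c)
    (hd : MellinConvergent f d) :
    ∃ C : ℝ, ∀ s : ℂ, c ≤ s.re → s.re ≤ d → ‖mellin f s‖ ≤ C := by
  have hn : ∀ e : ℝ, MellinConvergent f e →
      IntegrableOn (fun t : ℝ => t ^ (e - 1) * ‖f t‖) (Ioi 0) := by
    intro e he
    have he' : IntegrableOn (fun t : ℝ => ‖(t : ℂ) ^ ((e : ℂ) - 1) • f t‖) (Ioi 0) :=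
      Integrable.norm he
    refine he'.congr_fun (fun t ht => ?_) measurableSet_Ioi
    have ht' : (0 : ℝ) < t := ht
    simp only [norm_smul]
    rw [Complex.norm_cpow_eq_rpow_re_of_pos ht']
    simp
  refine ⟨∫ t in Ioi (0 : ℝ), (t ^ (c - 1) * ‖f t‖ + t ^ (d - 1) * ‖f t‖), ?_⟩
  intro s h1 h2
  rw [mellin]
  refine norm_integral_le_of_norm_le ((hn c hc).add (hn d hd)) ?_
  filter_upwards [ae_restrict_mem measurableSet_Ioi] with t ht
  have ht' : (0 : ℝ) < t := ht
  rw [norm_smul, Complex.norm_cpow_eq_rpow_re_of_pos ht', ← add_mul]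
  have h3 : t ^ (s - 1).re ≤ t ^ (c - 1) + t ^ (d - 1) := by
    rcases le_total t 1 with h | h
    · have h4 : t ^ (s - 1).re ≤ t ^ (c - 1) := by
        apply Real.rpow_le_rpow_of_exponent_ge ht' h
        simp only [Complex.sub_re, Complex.one_re]
        linarith
      have h5 : 0 ≤ t ^ (d - 1) := Real.rpow_nonneg ht'.le _
      linarith
    · have h4 : t ^ (s - 1).re ≤ t ^ (d - 1) := by
        apply Real.rpow_le_rpow_of_exponent_le h
        simp only [Complex.sub_re, Complex.one_re]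
        linarith
      have h5 : 0 ≤ t ^ (c - 1) := Real.rpow_nonneg ht'.le _
      linarith
  gcongr

/-- `Λ₀` is bounded on vertical strips. -/
lemma exists_norm_completedRiemannZeta₀_le (c d : ℝ) :
    ∃ C : ℝ, 0 < C ∧ ∀ s : ℂ, c ≤ s.re → s.re ≤ d → ‖completedRiemannZeta₀ s‖ ≤ C := by
  set P := HurwitzZeta.hurwitzEvenFEPair 0
  have hconv : ∀ s : ℂ, MellinConvergent P.f_modif s :=
    fun s => (P.isStrongFEPair_toStrongFEPair.hasMellin s).1
  obtain ⟨C, hC⟩ := exists_norm_mellin_le (c := c / 2) (d := d / 2)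
    (hconv _) (hconv _)
  refine ⟨|C| + 1, by positivity, fun s h1 h2 => ?_⟩
  have h3 : completedRiemannZeta₀ s = mellin P.f_modif (s / 2) / 2 := rfl
  have h4 := hC (s / 2) (by simp; linarith) (by simp; linarith)
  rw [h3, norm_div, Complex.norm_ofNat]
  have := le_abs_self C
  have h5 : 0 ≤ ‖mellin P.f_modif (s / 2)‖ := norm_nonneg _
  linarith

lemma zeta_norm_bounds {s : ℂ} (hs : 2 ≤ s.re) :
    1 / 4 ≤ ‖riemannZeta s‖ ∧ ‖riemannZeta s‖ ≤ 2 := by
  have h1 := zeta_eq_tsum_one_div_nat_add_one_cpow (s := s) (by linarith)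
  have hnorm : ∀ n : ℕ, ‖(1 : ℂ) / (n + 1 : ℂ) ^ s‖ ≤ 1 / ((n : ℝ) + 1) ^ 2 := by
    intro n
    have hpos : (0 : ℝ) < (n : ℝ) + 1 := by positivity
    rw [norm_div, norm_one]
    rw [show ((n : ℂ) + 1) = (((n : ℝ) + 1 : ℝ) : ℂ) by push_cast; rfl,
      Complex.norm_cpow_eq_rpow_re_of_pos hpos]
    apply one_div_le_one_div_of_le (by positivity)
    rw [← Real.rpow_natCast]
    apply Real.rpow_le_rpow_of_exponent_le
    · have : (0 : ℝ) ≤ n := Nat.cast_nonneg n
      linarith
    · simpa using hs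
  have hsum2 : HasSum (fun n : ℕ => 1 / ((n : ℝ) + 1) ^ 2) (π ^ 2 / 6) := by
    have h := hasSum_zeta_two
    have h' := (hasSum_nat_add_iff' (f := fun n : ℕ => 1 / (n : ℝ) ^ 2) 1).2 h
    simpa using h'
  have hsumm : Summable (fun n : ℕ => (1 : ℂ) / (n + 1 : ℂ) ^ s) :=
    Summable.of_norm_bounded hsum2.summable hnorm
  have h2 : riemannZeta s - 1 = ∑' n : ℕ, (1 : ℂ) / ((n + 1 : ℕ) + 1 : ℂ) ^ s := by
    rw [h1, hsumm.tsum_eq_zero_add]
    simp
  have hsum3 : HasSum (fun n : ℕ => 1 / (((n + 1 : ℕ) : ℝ) + 1) ^ 2) (π ^ 2 / 6 - 1) := by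
    have h' := (hasSum_nat_add_iff' (f := fun n : ℕ => 1 / ((n : ℝ) + 1) ^ 2) 1).2 hsum2
    simpa using h'
  have h3 : ‖riemannZeta s - 1‖ ≤ π ^ 2 / 6 - 1 := by
    rw [h2, ← hsum3.tsum_eq]
    refine tsum_of_norm_bounded hsum3.summable.hasSum ?_
    intro n
    have := hnorm (n + 1)
    simpa using this
  have hpi : π ^ 2 / 6 - 1 ≤ 3 / 4 := by
    have := Real.pi_lt_d2
    have := Real.pi_pos
    nlinarith
  have h4 : ‖riemannZeta s‖ ≤ ‖riemannZeta s - 1‖ + 1 := by
    have := norm_add_le (riemannZeta s - 1) 1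
    simpa using this
  have h5 : 1 ≤ ‖riemannZeta s‖ + ‖riemannZeta s - 1‖ := by
    have := norm_sub_le (riemannZeta s) (riemannZeta s - 1)
    simpa using this
  constructor <;> linarith

lemma norm_Gammaℝ {s : ℂ} : ‖Complex.Gammaℝ s‖ =
    π ^ (-(s.re / 2)) * ‖Complex.Gamma (s / 2)‖ := by
  rw [Complex.Gammaℝ_def, norm_mul, Complex.norm_cpow_eq_rpow_re_of_pos Real.pi_pos]
  congr 2
  simp [neg_div]

/-- Two-sided bound for `log |xi s|` in the half-plane `Re s ≥ 2`. -/
lemma log_norm_xi_bounds {s : ℂ} {R : ℝ} (hs : 2 ≤ s.re) (hR : 4 ≤ R) (hsR : ‖s‖ ≤ 2 * R) :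
    |Real.log ‖xi s‖ - s.re / 2 * Real.log R| ≤ 13 * R := by
  have hR0 : 0 < R := by linarith
  have h0 : s ≠ 0 := by
    rintro rfl
    simp at hs
    linarith
  have h1 : s ≠ 1 := by
    rintro rfl
    simp only [Complex.one_re] at hs
    linarith
  have hG : Complex.Gammaℝ s ≠ 0 := Complex.Gammaℝ_ne_zero_of_re_pos (by linarith)
  have hz := zeta_norm_bounds hs
  have hre : s.re ≤ 2 * R := (Complex.re_le_norm s).trans hsR
  have him : |s.im| ≤ 2 * R := (Complex.abs_im_le_norm s).trans hsR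
  have e1 : ‖xi s‖ = ‖s‖ * ‖1 - s‖ * (π ^ (-(s.re / 2)) * ‖Complex.Gamma (s / 2)‖) *
      ‖riemannZeta s‖ := by
    rw [xi_eq' h0 h1 hG, norm_mul, norm_mul, norm_mul, norm_Gammaℝ]
  have p1 : 0 < ‖s‖ := norm_pos_iff.2 h0
  have p2 : 0 < ‖1 - s‖ := norm_pos_iff.2 (sub_ne_zero.2 h1.symm)
  have hs2 : (s / 2).re = s.re / 2 := by simp
  have hs2' : (s / 2).im = s.im / 2 := by simp
  have p3 : 0 < ‖Complex.Gamma (s / 2)‖ := norm_pos_iff.2
    (Complex.Gamma_ne_zero_of_re_pos (by rw [hs2]; linarith))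
  have p4 : 0 < ‖riemannZeta s‖ := by linarith [hz.1]
  have p5 : (0 : ℝ) < π ^ (-(s.re / 2)) := Real.rpow_pos_of_pos Real.pi_pos _
  have e2 : Real.log ‖xi s‖ = Real.log ‖s‖ + Real.log ‖1 - s‖ +
      (-(s.re / 2) * Real.log π + Real.log ‖Complex.Gamma (s / 2)‖) +
      Real.log ‖riemannZeta s‖ := by
    rw [e1, Real.log_mul (by positivity) p4.ne', Real.log_mul (by positivity) (by positivity),
      Real.log_mul p1.ne' p2.ne', Real.log_mul p5.ne' p3.ne', Real.log_rpow Real.pi_pos]
  -- the individual bounds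
  have b1 : 0 ≤ Real.log ‖s‖ := Real.log_nonneg (by
    have := Complex.re_le_norm s
    linarith)
  have b1' : Real.log ‖s‖ ≤ 2 * R := by
    have := Real.log_le_sub_one_of_pos p1
    linarith
  have b2 : 0 ≤ Real.log ‖1 - s‖ := Real.log_nonneg (by
    have := Complex.abs_re_le_norm (1 - s)
    have h := neg_abs_le (1 - s).re
    simp only [Complex.sub_re, Complex.one_re] at this h
    linarith)
  have b2' : Real.log ‖1 - s‖ ≤ 2 * R := by
    have := Real.log_le_sub_one_of_pos p2
    have h := norm_sub_le 1 s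
    rw [norm_one] at h
    linarith
  have hlogpi : 0 ≤ Real.log π := Real.log_nonneg (by linarith [Real.pi_gt_three])
  have hlogpi' : Real.log π ≤ 2 := by
    rw [Real.log_le_iff_le_exp Real.pi_pos]
    have h1 := Real.add_one_le_exp (1 : ℝ)
    have h2 : Real.exp 2 = Real.exp 1 * Real.exp 1 := by
      rw [← Real.exp_add]; norm_num
    rw [h2]
    have := Real.pi_lt_d2
    nlinarith
  have b3 : -(s.re / 2) * Real.log π ≤ 0 := by
    have : 0 ≤ s.re / 2 * Real.log π := by positivity
    linarith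
  have b3' : -(2 * R) ≤ -(s.re / 2) * Real.log π := by
    nlinarith
  have b4 : Real.log ‖riemannZeta s‖ ≤ 1 := by
    have := Real.log_le_sub_one_of_pos p4
    linarith [hz.2]
  have b4' : -3 ≤ Real.log ‖riemannZeta s‖ := by
    have := Real.one_sub_inv_le_log_of_pos p4
    have h : ‖riemannZeta s‖⁻¹ ≤ 4 := by
      rw [inv_le_comm₀ p4 (by norm_num)]
      linarith [hz.1]
    linarith
  -- Gamma
  set x := s.re / 2 with hx
  have hx1 : 1 ≤ x := by rw [hx]; linarith
  have hxR : x ≤ R := by rw [hx]; linarith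
  have hlogx : x * Real.log x ≤ x * Real.log R := by gcongr
  have hlogx' : x * Real.log R - R ≤ x * Real.log x := by
    have h := Real.one_sub_inv_le_log_of_pos (show 0 < x / R by positivity)
    rw [Real.log_div (by positivity) (by positivity), inv_div] at h
    have h2 : x * (1 - R / x) ≤ x * (Real.log x - Real.log R) := by gcongr
    have h3 : x * (1 - R / x) = x - R := by field_simp
    nlinarith
  have g1 : Real.log ‖Complex.Gamma (s / 2)‖ ≤ x * Real.log R := by
    have h0 := norm_Gamma_le (s := s / 2) (by rw [hs2]; linarith)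
    rw [hs2] at h0
    have h := h0.trans (Gamma_le hx1)
    have h2 := Real.log_le_log p3 h
    rw [Real.log_exp] at h2
    linarith
  have g2 : x * Real.log R - 5 * R ≤ Real.log ‖Complex.Gamma (s / 2)‖ := by
    have h := norm_Gamma_ge (s := s / 2) (by rw [hs2]; linarith)
    rw [hs2, hs2'] at h
    have h2 : Real.exp (x * Real.log x - 2 * x) * Real.exp (-(π * |s.im / 2| / 2)) ≤
        ‖Complex.Gamma (s / 2)‖ := by
      refine le_trans ?_ h
      gcongr
      exact Gamma_ge hx1
    rw [← Real.exp_add] at h2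
    have h3 := (Real.le_log_iff_exp_le p3).2 h2
    have h4 : |s.im / 2| ≤ R := by
      rw [abs_div, abs_two]
      linarith
    have h5 : π * |s.im / 2| / 2 ≤ 2 * R := by
      have := Real.pi_lt_d2
      have := Real.pi_pos
      nlinarith [abs_nonneg (s.im / 2)]
    linarith
  rw [e2, abs_le]
  constructor
  · linarith
  · linarith

/-- The set of good points, where `|xi|` can be bounded from below. -/
def Good (s : ℂ) : Prop := 2 ≤ s.re ∨ s.re ≤ -1

/-- Uniform bounds for `log |xi s|` on the disc of radius `R` around `2`. -/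
lemma exists_log_norm_xi_bounds : ∃ C : ℝ, 0 < C ∧ ∀ (R : ℝ) (s : ℂ), 4 ≤ R → ‖s - 2‖ ≤ R →
    (Real.log ‖xi s‖ ≤ |s.re - 2| / 2 * Real.log R + C * R) ∧
    (Good s → |s.re - 2| / 2 * Real.log R - C * R ≤ Real.log ‖xi s‖) := by
  obtain ⟨C0, hC0, hb⟩ := exists_norm_completedRiemannZeta₀_le (-1) 2
  refine ⟨C0 * 6 + 100, by positivity, ?_⟩
  intro R s hR hs
  have hR0 : 0 < R := by linarith
  have hlogR : 0 ≤ Real.log R := Real.log_nonneg (by linarith)
  have hlogR' : Real.log R ≤ R := by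
    have := Real.log_le_sub_one_of_pos hR0
    linarith
  have hn1 : ‖s‖ ≤ R + 2 := by
    have := norm_add_le (s - 2) 2
    simp only [sub_add_cancel, Complex.norm_ofNat] at this
    linarith
  have hn2 : ‖1 - s‖ ≤ R + 1 := by
    have := norm_sub_le (-1 : ℂ) (s - 2)
    have e : (-1 : ℂ) - (s - 2) = 1 - s := by ring
    rw [e, norm_neg, norm_one] at this
    linarith
  have good : (2 ≤ s.re ∨ s.re ≤ -1) →
      |Real.log ‖xi s‖ - |s.re - 2| / 2 * Real.log R| ≤ 14 * R := by
    rintro (h | h)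
    · have := log_norm_xi_bounds h hR (by linarith)
      rw [abs_le] at this ⊢
      rw [abs_of_nonneg (by linarith : 0 ≤ s.re - 2)]
      constructor <;> nlinarith
    · have := log_norm_xi_bounds (s := 1 - s) (by simp; linarith) hR (by linarith)
      rw [xi_one_sub] at this
      rw [abs_le] at this ⊢
      simp only [Complex.sub_re, Complex.one_re] at this
      rw [abs_of_nonpos (by linarith : s.re - 2 ≤ 0)]
      constructor <;> nlinarith
  constructor
  · by_cases hg : 2 ≤ s.re ∨ s.re ≤ -1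
    · have := (abs_le.1 (good hg)).2
      nlinarith
    · push Not at hg
      have h1 := hb s hg.2.le hg.1.le
      have h2 : ‖xi s‖ ≤ (R + 2) * (R + 1) * C0 + 1 := by
        rw [xi]
        refine (norm_sub_le _ _).trans ?_
        rw [norm_mul, norm_mul, norm_one]
        gcongr
      have h3 : Real.log ‖xi s‖ ≤ C0 * 6 * R + 2 * R := by
        rcases eq_or_lt_of_le (norm_nonneg (xi s)) with h0 | h0
        · rw [← h0, Real.log_zero]
          positivity
        · have h4 : Real.log ‖xi s‖ ≤ Real.log ((R + 2) * (R + 1) * C0 + 1) :=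
            Real.log_le_log h0 h2
          have h5 : (R + 2) * (R + 1) * C0 + 1 ≤ R ^ 2 * (6 * C0 + 1) := by
            have : (R + 2) * (R + 1) ≤ 6 * R ^ 2 := by nlinarith
            nlinarith
          have h6 : Real.log ((R + 2) * (R + 1) * C0 + 1) ≤
              Real.log (R ^ 2 * (6 * C0 + 1)) := Real.log_le_log (by positivity) h5
          rw [Real.log_mul (by positivity) (by positivity), Real.log_pow] at h6
          have h7 := Real.log_le_sub_one_of_pos (show 0 < 6 * C0 + 1 by positivity)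
          push_cast at h6
          nlinarith
      have h8 : 0 ≤ |s.re - 2| / 2 * Real.log R := by positivity
      nlinarith
  · intro hg
    have := (abs_le.1 (good hg)).1
    nlinarith

end Pool.Agent.Lib.ZetaCount_helper33
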