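import Pool.Agent.Lib.ZetaCount_helper33.Polar
import Pool.Agent.Lib.ZetaCount_helper33.XiBounds

set_option autoImplicit false

open Filter MeasureTheory Topology Set Metric
open scoped Real ENNReal

namespace Pool.Agent.Lib.ZetaCount_helper33

lemma xi_ne_zero_of_one_lt_re {s : ℂ} (hs : 1 < s.re) : xi s ≠ 0 := by
  have h0 : s ≠ 0 := by
    rintro rfl
    simp at hs
    linarith
  have h1 : s ≠ 1 := by
    rintro rfl
    simp at hs
  have hG : Complex.Gammaℝ s ≠ 0 := Complex.Gammaℝ_ne_zero_of_re_pos (by linarith)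
  rw [xi_eq' h0 h1 hG]
  have h2 := riemannZeta_ne_zero_of_one_le_re hs.le
  have h3 : (1 : ℂ) - s ≠ 0 := sub_ne_zero.2 h1.symm
  positivity

lemma xi_two_ne_zero : xi 2 ≠ 0 := xi_ne_zero_of_one_lt_re (by simp)

lemma integral_abs_cos : ∫ θ in (-π)..π, |Real.cos θ| = 4 := by
  have hint : ∀ a b : ℝ, IntervalIntegrable (fun θ => |Real.cos θ|) volume a b :=
    fun a b => (Real.continuous_cos.abs).intervalIntegrable a b
  have hpi := Real.pi_pos
  rw [← intervalIntegral.integral_add_adjacent_intervals (hint (-π) (-(π / 2))) (hint _ π),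
    ← intervalIntegral.integral_add_adjacent_intervals (hint (-(π / 2)) (π / 2)) (hint _ π)]
  have e1 : ∫ θ in (-π)..(-(π / 2)), |Real.cos θ| = 1 := by
    rw [intervalIntegral.integral_congr (g := fun θ => -Real.cos θ)]
    · rw [intervalIntegral.integral_neg, integral_cos]
      simp
    · intro θ hθ
      rw [uIcc_of_le (by linarith)] at hθ
      simp only
      rw [abs_of_nonpos]
      rw [← Real.cos_neg]
      exact Real.cos_nonpos_of_pi_div_two_le_of_le (by linarith [hθ.2]) (by linarith [hθ.1])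
  have e2 : ∫ θ in (-(π / 2))..(π / 2), |Real.cos θ| = 2 := by
    rw [intervalIntegral.integral_congr (g := fun θ => Real.cos θ)]
    · rw [integral_cos]
      simp
      norm_num
    · intro θ hθ
      rw [uIcc_of_le (by linarith)] at hθ
      simp only
      rw [abs_of_nonneg]
      exact Real.cos_nonneg_of_neg_pi_div_two_le_of_le (by linarith [hθ.1]) hθ.2
  have e3 : ∫ θ in (π / 2)..π, |Real.cos θ| = 1 := by
    rw [intervalIntegral.integral_congr (g := fun θ => -Real.cos θ)]
    · rw [intervalIntegral.integral_neg, integral_cos]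
      simp
    · intro θ hθ
      rw [uIcc_of_le (by linarith)] at hθ
      simp only
      rw [abs_of_nonpos]
      exact Real.cos_nonpos_of_pi_div_two_le_of_le hθ.1 (by linarith [hθ.2])
  rw [e1, e2, e3]
  norm_num

/-- The bad vertical strip. -/
def bad : Set ℂ := {s | -1 < s.re ∧ s.re < 2}

lemma measurableSet_bad : MeasurableSet bad := by
  have : bad = Complex.re ⁻¹' (Ioo (-1) 2) := rfl
  rw [this]
  exact Complex.measurable_re measurableSet_Ioo

/-- Integral of the negative part of `log |xi|` over a disc of radius `5` around `3 ± iR`. -/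
lemma exists_ball_bound : ∃ C : ℝ, 0 < C ∧ ∀ (R ε : ℝ), 10 ≤ R → |ε| = 1 →
    ∫⁻ z in ball ((3 : ℝ) + (ε * R : ℝ) * Complex.I) 5, ENNReal.ofReal (-Real.log ‖xi z‖) ≤
      ENNReal.ofReal (C * R) := by
  obtain ⟨C, hC, hb⟩ := exists_log_norm_xi_bounds
  refine ⟨25 * (2 * π * (6 + 4 * C)), by positivity, ?_⟩
  intro R ε hR hε
  set P : ℂ := (3 : ℝ) + (ε * R : ℝ) * Complex.I with hP
  have hPre : P.re = 3 := by simp [hP]
  have hPn : ‖P - 2‖ ≤ R + 1 := by
    have e : P - 2 = 1 + ((ε * R : ℝ) : ℂ) * Complex.I := by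
      rw [hP]; push_cast; ring
    rw [e]
    refine (norm_add_le _ _).trans ?_
    rw [norm_one, norm_mul, Complex.norm_I, mul_one, Complex.norm_real, Real.norm_eq_abs, abs_mul,
      hε, one_mul, abs_of_pos (by linarith)]
    linarith
  have hP0 : xi P ≠ 0 := xi_ne_zero_of_one_lt_re (by rw [hPre]; norm_num)
  have hlow : -(2 * C * R) ≤ Real.log ‖xi P‖ := by
    have h := (hb (R + 1) P (by linarith) hPn).2 (Or.inl (by rw [hPre]; norm_num))
    have h2 : 0 ≤ |P.re - 2| / 2 * Real.log (R + 1) := by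
      have : 0 ≤ Real.log (R + 1) := Real.log_nonneg (by linarith)
      positivity
    nlinarith
  have hup : ∀ z ∈ closedBall P 5, Real.log ‖xi z‖ ≤ (6 + 2 * C) * R := by
    intro z hz
    rw [mem_closedBall, dist_eq_norm] at hz
    have h1 : ‖z - 2‖ ≤ R + 6 := by
      have := norm_add_le (z - P) (P - 2)
      rw [sub_add_sub_cancel] at this
      linarith
    have h2 : |z.re - 2| ≤ 6 := by
      have h3 := (Complex.abs_re_le_norm (z - P)).trans hz
      rw [Complex.sub_re, hPre] at h3
      rw [abs_le] at h3 ⊢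
      constructor <;> linarith
    have h3 := (hb (R + 6) z (by linarith) h1).1
    have h4 : Real.log (R + 6) ≤ R + 6 := by
      have := Real.log_le_sub_one_of_pos (show 0 < R + 6 by linarith)
      linarith
    have h5 : 0 ≤ Real.log (R + 6) := Real.log_nonneg (by linarith)
    have h6 : |z.re - 2| / 2 * Real.log (R + 6) ≤ 3 * (R + 6) := by
      have : |z.re - 2| / 2 ≤ 3 := by linarith
      gcongr
    nlinarith
  refine (lintegral_neg_ball differentiable_xi hP0 (by positivity) hup).trans ?_
  apply ENNReal.ofReal_le_ofReal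
  have : (6 + 2 * C) * R - Real.log ‖xi P‖ ≤ (6 + 4 * C) * R := by nlinarith
  have h2 : 25 * (2 * π * ((6 + 2 * C) * R - Real.log ‖xi P‖)) ≤
      25 * (2 * π * ((6 + 4 * C) * R)) := by gcongr
  linarith

/-- There is a radius in `(R-1, R)` on which the negative part of `log |xi|` on the bad arcs is
under control. -/
lemma exists_good_radius : ∃ C : ℝ, 0 < C ∧ ∀ R : ℝ, 10 ≤ R → ∃ r ∈ Ioo (R - 1) R,
    ∫⁻ θ in Ioo (-π) π, bad.indicator (fun z => ENNReal.ofReal (-Real.log ‖xi z‖))
      (circleMap 2 r θ) ≤ ENNReal.ofReal C := by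
  obtain ⟨C, hC, hb⟩ := exists_ball_bound
  refine ⟨4 * C, by positivity, ?_⟩
  intro R hR
  by_contra hcon
  push Not at hcon
  have hm : Measurable (fun z => ENNReal.ofReal (-Real.log ‖xi z‖)) :=
    ENNReal.measurable_ofReal.comp (measurable_log_norm differentiable_xi).neg
  set G : ℂ → ℝ≥0∞ := fun z => ENNReal.ofReal (-Real.log ‖xi z‖) with hG
  set A : Set ℂ := {z | R - 1 < ‖z - 2‖ ∧ ‖z - 2‖ < R} with hA
  have hAm : MeasurableSet A := by
    have : A = (fun z : ℂ => ‖z - 2‖) ⁻¹' (Ioo (R - 1) R) := rfl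
    rw [this]
    exact (by fun_prop : Measurable (fun z : ℂ => ‖z - 2‖)) measurableSet_Ioo
  have hsub : bad ∩ A ⊆ ball ((3 : ℝ) + ((1 : ℝ) * R : ℝ) * Complex.I) 5 ∪
      ball ((3 : ℝ) + ((-1 : ℝ) * R : ℝ) * Complex.I) 5 := by
    rintro z ⟨⟨h1, h2⟩, h3, h4⟩
    have hn : (z.re - 2) ^ 2 + z.im ^ 2 = ‖z - 2‖ ^ 2 := by
      rw [← Complex.normSq_eq_norm_sq, Complex.normSq_apply]
      simp
      ring
    have h5 : z.im ^ 2 ≤ R ^ 2 := by
      have : ‖z - 2‖ ^ 2 ≤ R ^ 2 := by gcongr
      nlinarith [sq_nonneg (z.re - 2)]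
    have h6 : (R - 2) ^ 2 ≤ z.im ^ 2 := by
      have : (R - 1) ^ 2 ≤ ‖z - 2‖ ^ 2 := by
        have : 0 ≤ R - 1 := by linarith
        gcongr
      have h7 : (z.re - 2) ^ 2 ≤ 9 := by nlinarith
      nlinarith
    have h5' : |z.im| ≤ R := abs_le_of_sq_le_sq h5 (by linarith)
    have h6' : R - 2 ≤ |z.im| := by
      have := sq_le_sq.1 h6
      rwa [abs_of_nonneg (by linarith : 0 ≤ R - 2)] at this
    have key : ∀ y : ℝ, |z.im - y| ≤ 2 → z ∈ ball ((3 : ℝ) + (y : ℝ) * Complex.I) 5 := by
      intro y hy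
      rw [mem_ball, dist_eq_norm]
      have h8 : ‖z - ((3 : ℝ) + (y : ℝ) * Complex.I)‖ ^ 2 = (z.re - 3) ^ 2 + (z.im - y) ^ 2 := by
        rw [← Complex.normSq_eq_norm_sq, Complex.normSq_apply]
        simp
        ring
      have h9 : (z.im - y) ^ 2 ≤ 4 := by
        have := abs_le.1 hy
        nlinarith
      have h10 : (z.re - 3) ^ 2 ≤ 16 := by nlinarith
      have h11 : ‖z - ((3 : ℝ) + (y : ℝ) * Complex.I)‖ ^ 2 < 5 ^ 2 := by
        rw [h8]; linarith
      exact lt_of_pow_lt_pow_left₀ 2 (by norm_num) h11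
    rcases le_total 0 z.im with h | h
    · left
      rw [abs_of_nonneg h] at h5' h6'
      apply key
      rw [abs_le]
      constructor <;> linarith
    · right
      rw [abs_of_nonpos h] at h5' h6'
      apply key
      rw [abs_le]
      constructor <;> linarith
  have hupper : ∫⁻ z, (bad ∩ A).indicator G z ≤ ENNReal.ofReal (2 * C * R) := by
    rw [lintegral_indicator (measurableSet_bad.inter hAm)]
    refine (lintegral_mono_set hsub).trans ((lintegral_union_le _ _ _).trans ?_)
    have e : 2 * C * R = C * R + C * R := by ring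
    rw [e, ENNReal.ofReal_add (by positivity) (by positivity)]
    exact add_le_add (hb R 1 hR (by simp)) (hb R (-1) hR (by simp))
  rw [lintegral_polar 2 (hm.indicator (measurableSet_bad.inter hAm))] at hupper
  have hlower : ENNReal.ofReal ((R - 1) * (4 * C)) ≤ ∫⁻ r in Ioi (0 : ℝ), ENNReal.ofReal r *
      ∫⁻ θ in Ioo (-π) π, (bad ∩ A).indicator G (circleMap 2 r θ) := by
    calc ENNReal.ofReal ((R - 1) * (4 * C)) = ∫⁻ r in Ioo (R - 1) R,
        ENNReal.ofReal ((R - 1) * (4 * C)) := by
          rw [setLIntegral_const, Real.volume_Ioo]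
          simp
      _ ≤ ∫⁻ r in Ioo (R - 1) R, ENNReal.ofReal r *
          ∫⁻ θ in Ioo (-π) π, (bad ∩ A).indicator G (circleMap 2 r θ) := by
          apply setLIntegral_mono'  measurableSet_Ioo
          intro r hr
          have h1 := (hcon r hr).le
          rw [ENNReal.ofReal_mul (by linarith)]
          have h2 : ∀ θ, (bad ∩ A).indicator G (circleMap 2 r θ) =
              bad.indicator G (circleMap 2 r θ) := by
            intro θ
            have h3 : circleMap 2 r θ ∈ A := by
              have := circleMap_mem_sphere (2 : ℂ) (show 0 ≤ r by linarith [hr.1]) θ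
              rw [mem_sphere, dist_eq_norm] at this
              simp only [hA, mem_ofPred_eq, this]
              exact hr
            by_cases h4 : circleMap 2 r θ ∈ bad
            · rw [indicator_of_mem h4, indicator_of_mem (show circleMap 2 r θ ∈ bad ∩ A from ⟨h4, h3⟩)]
            · rw [indicator_of_notMem h4, indicator_of_notMem (fun h => h4 h.1)]
          simp_rw [h2]
          gcongr
          exact hr.1.le
      _ ≤ _ := lintegral_mono_set (fun r hr => by
          simp only [mem_Ioi]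
          linarith [hr.1])
  have h := hlower.trans hupper
  rw [ENNReal.ofReal_le_ofReal_iff (by positivity)] at h
  nlinarith

end Pool.Agent.Lib.ZetaCount_helper33
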